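import Pool.Agent.V1184.CR.Prob

set_option autoImplicit false

open MeasureTheory ProbabilityTheory Filter Topology Matrix
open scoped ENNReal

namespace Pool.Agent.V1184.CR

variable {m₁ m₂ : ℕ} {F : Fin 3 → Measure ℝ} {θ κ : Fin 3 → ℝ}

lemma memLp_aff (hF : Laws F θ κ) (a : ℝ) (c : Idx m₁ m₂ → ℝ) :
    MemLp (fun ω => a + lin c ω) 8 (joint m₁ m₂ F) := by
  have := joint_prob (m₁ := m₁) (m₂ := m₂) hF
  exact (memLp_const a).add (memLp_lin hF c)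

lemma int_aff (hF : Laws F θ κ) (a : ℝ) (c : Idx m₁ m₂ → ℝ) :
    Integrable (fun ω => (a + lin c ω) ^ 2) (joint m₁ m₂ F) := by
  have := joint_prob (m₁ := m₁) (m₂ := m₂) hF
  exact int_pow (memLp_aff hF a c) (by norm_num)

lemma sq_aff (hF : Laws F θ κ) (a : ℝ) (c : Idx m₁ m₂ → ℝ) :
    ∫ ω, (a + lin c ω) ^ 2 ∂(joint m₁ m₂ F) = a ^ 2 + ∑ k, c k ^ 2 * vr θ k := by
  have := joint_prob (m₁ := m₁) (m₂ := m₂) hF
  have e : ∀ ω : Idx m₁ m₂ → ℝ, (a + lin c ω) ^ 2 = a ^ 2 + (2 * a * lin c ω + lin c ω ^ 2) := by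
    intro ω
    ring
  simp only [e]
  have i1 : Integrable (fun ω : Idx m₁ m₂ → ℝ => 2 * a * lin c ω) (joint m₁ m₂ F) := by
    have := int_pow (memLp_lin hF c) (i := 1) (by norm_num)
    simp only [pow_one] at this
    exact this.const_mul _
  have i2 := int_pow (memLp_lin (m₁ := m₁) (m₂ := m₂) hF c) (i := 2) (by norm_num)
  have i3 : Integrable (fun ω : Idx m₁ m₂ → ℝ => 2 * a * lin c ω + lin c ω ^ 2)
    (joint m₁ m₂ F) := i1.add i2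
  rw [integral_add (integrable_const _) i3, integral_add i1 i2, integral_const_mul, mean_lin hF,
    sq_lin hF]
  simp

/-- coefficient vectors -/
def eC (p : Cell m₁ m₂) : Idx m₁ m₂ → ℝ :=
  Sum.elim (fun i => if p.1 = i then 1 else 0)
    (Sum.elim (fun j => if p.2 = j then 1 else 0) (fun q => if p = q then 1 else 0))
/-- coefficient vectors -/
def dR (i : Fin m₁) : Idx m₁ m₂ → ℝ :=
  Sum.elim (fun i' => if i = i' then (m₂ : ℝ) else 0)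
    (Sum.elim (fun _ => 1) (fun q => if i = q.1 then 1 else 0))
/-- coefficient vectors -/
def dC (j : Fin m₂) : Idx m₁ m₂ → ℝ :=
  Sum.elim (fun _ => 1)
    (Sum.elim (fun j' => if j = j' then (m₁ : ℝ) else 0) (fun q => if j = q.2 then 1 else 0))
/-- coefficient vectors -/
def dT : Idx m₁ m₂ → ℝ :=
  Sum.elim (fun _ => (m₂ : ℝ)) (Sum.elim (fun _ => (m₁ : ℝ)) (fun _ => 1))

lemma sum_idx (f : Idx m₁ m₂ → ℝ) : ∑ k, f k = ∑ i, f (Sum.inl i) +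
    (∑ j, f (Sum.inr (Sum.inl j)) + ∑ q, f (Sum.inr (Sum.inr q))) := by
  rw [Fintype.sum_sum_type, Fintype.sum_sum_type]

lemma obs_eq (μ : ℝ) (ω : Idx m₁ m₂ → ℝ) (p : Cell m₁ m₂) :
    obs μ ω p = μ + lin (eC p) ω := by
  unfold obs lin
  rw [sum_idx]
  simp [eC]
  ring

lemma rs_obs (μ : ℝ) (ω : Idx m₁ m₂ → ℝ) (i : Fin m₁) :
    rs (obs μ ω) i = m₂ * μ + lin (dR i) ω := by
  unfold rs obs lin
  rw [sum_idx]
  simp only [Finset.sum_add_distrib, Finset.sum_const, Finset.card_univ, Fintype.card_fin,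
    nsmul_eq_mul, dR, Sum.elim_inl, Sum.elim_inr, ite_mul, zero_mul, one_mul, Finset.sum_ite_eq,
    Finset.mem_univ, if_true]
  rw [Fintype.sum_prod_type, Finset.sum_comm]
  simp
  ring

lemma cs_obs (μ : ℝ) (ω : Idx m₁ m₂ → ℝ) (j : Fin m₂) :
    cs (obs μ ω) j = m₁ * μ + lin (dC j) ω := by
  unfold cs obs lin
  rw [sum_idx]
  simp only [Finset.sum_add_distrib, Finset.sum_const, Finset.card_univ, Fintype.card_fin,
    nsmul_eq_mul, dC, Sum.elim_inl, Sum.elim_inr, ite_mul, zero_mul, one_mul, Finset.sum_ite_eq,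
    Finset.mem_univ, if_true]
  rw [Fintype.sum_prod_type]
  simp
  ring

lemma tot_obs (μ : ℝ) (ω : Idx m₁ m₂ → ℝ) :
    tot (obs μ ω) = (m₁ * m₂) * μ + lin dT ω := by
  unfold tot obs lin
  rw [sum_idx]
  simp only [Finset.sum_add_distrib, Finset.sum_const, Finset.card_univ, Fintype.card_fin,
    nsmul_eq_mul, dT, Sum.elim_inl, Sum.elim_inr, Fintype.card_prod]
  have e1 : ∑ x : Cell m₁ m₂, ω (Sum.inl x.1) = ∑ i, m₂ * ω (Sum.inl i) := by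
    rw [Fintype.sum_prod_type]
    simp
  have e2 : ∑ x : Cell m₁ m₂, ω (Sum.inr (Sum.inl x.2)) = ∑ j, m₁ * ω (Sum.inr (Sum.inl j)) := by
    rw [Fintype.sum_prod_type, Finset.sum_comm]
    simp
  rw [e1, e2]
  push_cast
  simp only [one_mul]
  ring

lemma v_eC (p : Cell m₁ m₂) : ∑ k, eC p k ^ 2 * vr θ k = θ 0 + θ 1 + θ 2 := by
  rw [sum_idx]
  simp [eC, vr]
  ring

lemma v_dR (i : Fin m₁) : ∑ k, dR (m₂ := m₂) i k ^ 2 * vr θ k =
    m₂ ^ 2 * θ 1 + m₂ * θ 2 + m₂ * θ 0 := by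
  rw [sum_idx]
  simp only [dR, vr, Sum.elim_inl, Sum.elim_inr, ite_pow, ite_mul, zero_mul, one_mul, ne_eq,
    OfNat.ofNat_ne_zero, not_false_eq_true, zero_pow, one_pow, Finset.sum_ite_eq,
    Finset.mem_univ, if_true, Finset.sum_const, Finset.card_univ, Fintype.card_fin, nsmul_eq_mul]
  rw [Fintype.sum_prod_type, Finset.sum_comm]
  simp
  ring

lemma v_dC (j : Fin m₂) : ∑ k, dC (m₁ := m₁) j k ^ 2 * vr θ k =
    m₁ * θ 1 + m₁ ^ 2 * θ 2 + m₁ * θ 0 := by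
  rw [sum_idx]
  simp only [dC, vr, Sum.elim_inl, Sum.elim_inr, ite_pow, ite_mul, zero_mul, one_mul, ne_eq,
    OfNat.ofNat_ne_zero, not_false_eq_true, zero_pow, one_pow, Finset.sum_ite_eq,
    Finset.mem_univ, if_true, Finset.sum_const, Finset.card_univ, Fintype.card_fin, nsmul_eq_mul]
  rw [Fintype.sum_prod_type]
  simp
  ring

lemma v_dT : ∑ k, dT (m₁ := m₁) (m₂ := m₂) k ^ 2 * vr θ k =
    m₁ * m₂ ^ 2 * θ 1 + m₂ * m₁ ^ 2 * θ 2 + m₁ * m₂ * θ 0 := by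
  rw [sum_idx]
  simp [dT, vr]
  ring

/-- the four basic expectations -/
lemma exp_q0 (hF : Laws F θ κ) (μ : ℝ) :
    Integrable (fun ω => ∑ p, obs (m₁ := m₁) (m₂ := m₂) μ ω p ^ 2) (joint m₁ m₂ F) ∧
    ∫ ω, ∑ p, obs (m₁ := m₁) (m₂ := m₂) μ ω p ^ 2 ∂(joint m₁ m₂ F) =
      m₁ * m₂ * (μ ^ 2 + (θ 0 + θ 1 + θ 2)) := by
  simp only [obs_eq]
  refine ⟨integrable_finsetSum _ fun p _ => int_aff hF _ _, ?_⟩
  rw [integral_finsetSum _ fun p _ => int_aff hF _ _]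
  simp only [sq_aff hF, v_eC, Finset.sum_const, Finset.card_univ, Fintype.card_prod,
    Fintype.card_fin, nsmul_eq_mul]
  push_cast
  ring

lemma exp_qR (hF : Laws F θ κ) (μ : ℝ) :
    Integrable (fun ω => ∑ i, rs (obs (m₁ := m₁) (m₂ := m₂) μ ω) i ^ 2) (joint m₁ m₂ F) ∧
    ∫ ω, ∑ i, rs (obs (m₁ := m₁) (m₂ := m₂) μ ω) i ^ 2 ∂(joint m₁ m₂ F) =
      m₁ * ((m₂ * μ) ^ 2 + (m₂ ^ 2 * θ 1 + m₂ * θ 2 + m₂ * θ 0)) := by
  simp only [rs_obs]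
  refine ⟨integrable_finsetSum _ fun p _ => int_aff hF _ _, ?_⟩
  rw [integral_finsetSum _ fun p _ => int_aff hF _ _]
  simp only [sq_aff hF, v_dR, Finset.sum_const, Finset.card_univ, Fintype.card_fin, nsmul_eq_mul]

lemma exp_qC (hF : Laws F θ κ) (μ : ℝ) :
    Integrable (fun ω => ∑ j, cs (obs (m₁ := m₁) (m₂ := m₂) μ ω) j ^ 2) (joint m₁ m₂ F) ∧
    ∫ ω, ∑ j, cs (obs (m₁ := m₁) (m₂ := m₂) μ ω) j ^ 2 ∂(joint m₁ m₂ F) =
      m₂ * ((m₁ * μ) ^ 2 + (m₁ * θ 1 + m₁ ^ 2 * θ 2 + m₁ * θ 0)) := by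
  simp only [cs_obs]
  refine ⟨integrable_finsetSum _ fun p _ => int_aff hF _ _, ?_⟩
  rw [integral_finsetSum _ fun p _ => int_aff hF _ _]
  simp only [sq_aff hF, v_dC, Finset.sum_const, Finset.card_univ, Fintype.card_fin, nsmul_eq_mul]

lemma exp_qJ (hF : Laws F θ κ) (μ : ℝ) :
    Integrable (fun ω => tot (obs (m₁ := m₁) (m₂ := m₂) μ ω) ^ 2) (joint m₁ m₂ F) ∧
    ∫ ω, tot (obs (m₁ := m₁) (m₂ := m₂) μ ω) ^ 2 ∂(joint m₁ m₂ F) =
      (m₁ * m₂ * μ) ^ 2 + (m₁ * m₂ ^ 2 * θ 1 + m₂ * m₁ ^ 2 * θ 2 + m₁ * m₂ * θ 0) := by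
  simp only [tot_obs]
  refine ⟨int_aff hF _ _, ?_⟩
  rw [sq_aff hF, v_dT]

lemma exp_SS (hF : Laws F θ κ) (μ : ℝ) (hm₁ : 0 < m₁) (hm₂ : 0 < m₂) (k : Fin 3) :
    Integrable (fun ω => SS (obs (m₁ := m₁) (m₂ := m₂) μ ω) k) (joint m₁ m₂ F) ∧
    ∫ ω, SS (obs (m₁ := m₁) (m₂ := m₂) μ ω) k ∂(joint m₁ m₂ F) =
      nn m₁ m₂ k * lam m₁ m₂ θ k := by
  have n1 : 0 < (m₁ : ℝ) := by positivity
  have n2 : 0 < (m₂ : ℝ) := by positivity
  obtain ⟨i0, x0⟩ := exp_q0 (m₁ := m₁) (m₂ := m₂) hF μ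
  obtain ⟨iR, xR⟩ := exp_qR (m₁ := m₁) (m₂ := m₂) hF μ
  obtain ⟨iC, xC⟩ := exp_qC (m₁ := m₁) (m₂ := m₂) hF μ
  obtain ⟨iJ, xJ⟩ := exp_qJ (m₁ := m₁) (m₂ := m₂) hF μ
  have jR := iR.div_const (m₂ : ℝ)
  have jC := iC.div_const (m₁ : ℝ)
  have jJ := iJ.div_const ((m₁ : ℝ) * m₂)
  fin_cases k
  · simp only [SS, nn, lam, Fin.zero_eta, Matrix.cons_val_zero]
    have ja : Integrable (fun ω => ∑ p, obs (m₁ := m₁) (m₂ := m₂) μ ω p ^ 2 -
        (∑ i, rs (obs (m₁ := m₁) (m₂ := m₂) μ ω) i ^ 2) / m₂) (joint m₁ m₂ F) := i0.sub jR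
    have jb : Integrable (fun ω => ∑ p, obs (m₁ := m₁) (m₂ := m₂) μ ω p ^ 2 -
        (∑ i, rs (obs (m₁ := m₁) (m₂ := m₂) μ ω) i ^ 2) / m₂ -
        (∑ j, cs (obs (m₁ := m₁) (m₂ := m₂) μ ω) j ^ 2) / m₁) (joint m₁ m₂ F) := ja.sub jC
    refine ⟨jb.add jJ, ?_⟩
    rw [integral_add jb jJ, integral_sub ja jC, integral_sub i0 jR, integral_div, integral_div,
      integral_div, x0, xR, xC, xJ]
    field_simp
    ring
  · simp only [SS, nn, lam, Fin.mk_one, Matrix.cons_val_one, Matrix.cons_val_zero]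
    refine ⟨jR.sub jJ, ?_⟩
    rw [integral_sub jR jJ, integral_div, integral_div, xR, xJ]
    field_simp
    ring
  · simp only [SS, nn, lam, Fin.reduceFinMk, Matrix.cons_val]
    refine ⟨jC.sub jJ, ?_⟩
    rw [integral_sub jC jJ, integral_div, integral_div, xC, xJ]
    field_simp
    ring

/-- the matrix `A` -/
lemma Amat_eq (hF : Laws F θ κ) (μ : ℝ) (hm₁ : 0 < m₁) (hm₂ : 0 < m₂) :
    Amat m₁ m₂ F μ θ = -((L m₁ m₂)ᵀ * Matrix.diagonal (fun k => nn m₁ m₂ k /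
      (2 * lam m₁ m₂ θ k ^ 2)) * L m₁ m₂) := by
  have := joint_prob (m₁ := m₁) (m₂ := m₂) hF
  have hpos : Pos θ := hF.pos
  ext j l
  simp only [Amat, Matrix.of_apply, pd2_reml hpos hm₁ hm₂]
  have hi : ∀ k, Integrable (fun ω => L m₁ m₂ k l * (L m₁ m₂ k j *
      (1 / 2 * (nn m₁ m₂ k / lam m₁ m₂ θ k ^ 2 -
        2 * SS (obs (m₁ := m₁) (m₂ := m₂) μ ω) k / lam m₁ m₂ θ k ^ 3)))) (joint m₁ m₂ F) := by
    intro k
    have h1 := (exp_SS (m₁ := m₁) (m₂ := m₂) hF μ hm₁ hm₂ k).1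
    exact ((((integrable_const _).sub ((h1.const_mul 2).div_const _)).const_mul _).const_mul
      _).const_mul _
  rw [integral_finsetSum _ fun k _ => hi k]
  rw [Matrix.neg_apply, Matrix.mul_apply, ← Finset.sum_neg_distrib]
  refine Finset.sum_congr rfl fun k _ => ?_
  have h1 := exp_SS (m₁ := m₁) (m₂ := m₂) hF μ hm₁ hm₂ k
  rw [integral_const_mul, integral_const_mul, integral_const_mul,
    integral_sub (integrable_const _) ((h1.1.const_mul 2).div_const _), integral_div,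
    integral_div, integral_const_mul, h1.2, Matrix.mul_diagonal, Matrix.transpose_apply]
  have := lam_pos (m₁ := m₁) (m₂ := m₂) hpos k
  simp only [integral_const, probReal_univ, one_smul]
  field_simp
  ring

lemma L_det (hm₁ : 0 < m₁) (hm₂ : 0 < m₂) : (L m₁ m₂).det ≠ 0 := by
  have n1 : 0 < (m₁ : ℝ) := by positivity
  have n2 : 0 < (m₂ : ℝ) := by positivity
  rw [Matrix.det_fin_three]
  simp [L]
  constructor <;> omega

/-- closed form of `h' A⁻¹ b` -/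
lemma main_eq (hF : Laws F θ κ) (μ : ℝ) (hm₁ : 2 ≤ m₁) (hm₂ : 2 ≤ m₂) (a₀ : ℝ)
    (a₁ : Fin m₁ → ℝ) (a₂ : Fin m₂ → ℝ) (y : Cell m₁ m₂ → ℝ) :
    hvec m₁ m₂ a₀ a₁ a₂ θ y ⬝ᵥ (Amat m₁ m₂ F μ θ)⁻¹ *ᵥ score m₁ m₂ θ y =
      X₁ a₁ y / lam m₁ m₂ θ 1 * (SS y 0 / nn m₁ m₂ 0 -
        lam m₁ m₂ θ 0 * SS y 1 / (nn m₁ m₂ 1 * lam m₁ m₂ θ 1)) +
      X₂ a₂ y / lam m₁ m₂ θ 2 * (SS y 0 / nn m₁ m₂ 0 -
        lam m₁ m₂ θ 0 * SS y 2 / (nn m₁ m₂ 2 * lam m₁ m₂ θ 2)) := by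
  have hpos : Pos θ := hF.pos
  have g1 : 0 < m₁ := by omega
  have g2 : 0 < m₂ := by omega
  have l0 := lam_pos (m₁ := m₁) (m₂ := m₂) hpos 0
  have l1 := lam_pos (m₁ := m₁) (m₂ := m₂) hpos 1
  have l2 := lam_pos (m₁ := m₁) (m₂ := m₂) hpos 2
  have k1 : (2 : ℝ) ≤ m₁ := by exact_mod_cast hm₁
  have k2 : (2 : ℝ) ≤ m₂ := by exact_mod_cast hm₂
  have hn : ∀ k, 0 < nn m₁ m₂ k := by
    intro k
    fin_cases k
    · simp only [nn, Fin.zero_eta, Matrix.cons_val_zero]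
      exact mul_pos (by linarith) (by linarith)
    · simp only [nn, Fin.mk_one, Matrix.cons_val_one, Matrix.cons_val_zero]
      linarith
    · simp only [nn, Fin.reduceFinMk, Matrix.cons_val]
      linarith
  have e1 : hvec m₁ m₂ a₀ a₁ a₂ θ y = (L m₁ m₂)ᵀ *ᵥ eta a₁ a₂ y θ := by
    ext j
    simp only [hvec, pd_blup hpos g1 g2, Matrix.mulVec, dotProduct, Matrix.transpose_apply]
  have e2 : score m₁ m₂ θ y = (L m₁ m₂)ᵀ *ᵥ D y θ := by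
    ext j
    simp only [score, pd_reml hpos g1 g2, Matrix.mulVec, dotProduct, Matrix.transpose_apply]
  rw [e1, e2, Amat_eq hF μ g1 g2, alg _ (L_det g1 g2) _ _ _ (fun k => ?_)]
  · have n0 := hn 0
    have n1 := hn 1
    have n2 := hn 2
    simp only [Fin.sum_univ_three, eta, D, Matrix.cons_val_zero, Matrix.cons_val_one,
      Matrix.cons_val]
    generalize lam m₁ m₂ θ 0 = x0 at *
    generalize lam m₁ m₂ θ 1 = x1 at *
    generalize lam m₁ m₂ θ 2 = x2 at *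
    generalize nn m₁ m₂ 0 = y0 at *
    generalize nn m₁ m₂ 1 = y1 at *
    generalize nn m₁ m₂ 2 = y2 at *
    field_simp
    ring
  · have := lam_pos (m₁ := m₁) (m₂ := m₂) hpos k
    have := hn k
    positivity

end Pool.Agent.V1184.CR
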