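import Pool.Agent.V1184.CR.Mat

set_option autoImplicit false

open MeasureTheory ProbabilityTheory Filter Topology Matrix

namespace Pool.Agent.V1184.CR

variable {m₁ m₂ : ℕ}

/-- row sums -/
def rs (y : Cell m₁ m₂ → ℝ) (i : Fin m₁) : ℝ := ∑ j, y (i, j)
/-- column sums -/
def cs (y : Cell m₁ m₂ → ℝ) (j : Fin m₂) : ℝ := ∑ i, y (i, j)
/-- total -/
def tot (y : Cell m₁ m₂ → ℝ) : ℝ := ∑ p, y p

lemma R_mulVec (y : Cell m₁ m₂ → ℝ) : Rm m₁ m₂ *ᵥ y = fun p => rs y p.1 := by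
  ext p
  rw [Matrix.mulVec, dotProduct, Fintype.sum_prod_type, Finset.sum_comm]
  simp [Rm, rs]

lemma C_mulVec (y : Cell m₁ m₂ → ℝ) : Cm m₁ m₂ *ᵥ y = fun p => cs y p.2 := by
  ext p
  rw [Matrix.mulVec, dotProduct, Fintype.sum_prod_type]
  simp [Cm, cs]

lemma J_mulVec (y : Cell m₁ m₂ → ℝ) : Jm m₁ m₂ *ᵥ y = fun _ => tot y := by
  ext p
  rw [Matrix.mulVec, dotProduct]
  simp [Jm, tot]

lemma sum_rs (y : Cell m₁ m₂ → ℝ) : ∑ i, rs y i = tot y := by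
  unfold rs tot
  rw [Fintype.sum_prod_type]

lemma sum_cs (y : Cell m₁ m₂ → ℝ) : ∑ j, cs y j = tot y := by
  unfold cs tot
  rw [Fintype.sum_prod_type, Finset.sum_comm]

lemma dot_R (y : Cell m₁ m₂ → ℝ) : y ⬝ᵥ Rm m₁ m₂ *ᵥ y = ∑ i, rs y i ^ 2 := by
  rw [R_mulVec, dotProduct, Fintype.sum_prod_type]
  refine Finset.sum_congr rfl fun i _ => ?_
  change ∑ j, y (i, j) * rs y i = rs y i ^ 2
  rw [← Finset.sum_mul, sq]
  rfl

lemma dot_C (y : Cell m₁ m₂ → ℝ) : y ⬝ᵥ Cm m₁ m₂ *ᵥ y = ∑ j, cs y j ^ 2 := by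
  rw [C_mulVec, dotProduct, Fintype.sum_prod_type, Finset.sum_comm]
  refine Finset.sum_congr rfl fun j _ => ?_
  change ∑ i, y (i, j) * cs y j = cs y j ^ 2
  rw [← Finset.sum_mul, sq]
  rfl

lemma dot_J (y : Cell m₁ m₂ → ℝ) : y ⬝ᵥ Jm m₁ m₂ *ᵥ y = tot y ^ 2 := by
  rw [J_mulVec, dotProduct, ← Finset.sum_mul, sq]
  rfl

/-- the sums of squares -/
noncomputable def SS (y : Cell m₁ m₂ → ℝ) : Fin 3 → ℝ :=
  ![∑ p, y p ^ 2 - (∑ i, rs y i ^ 2) / m₂ - (∑ j, cs y j ^ 2) / m₁ + tot y ^ 2 / (m₁ * m₂),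
    (∑ i, rs y i ^ 2) / m₂ - tot y ^ 2 / (m₁ * m₂),
    (∑ j, cs y j ^ 2) / m₁ - tot y ^ 2 / (m₁ * m₂)]

/-- degrees of freedom -/
noncomputable def nn (m₁ m₂ : ℕ) : Fin 3 → ℝ :=
  ![(m₁ - 1 : ℝ) * (m₂ - 1), (m₁ - 1 : ℝ), (m₂ - 1 : ℝ)]

lemma W_ones {θ : Fin 3 → ℝ} (hm₁ : 0 < m₁) (hm₂ : 0 < m₂) :
    W m₁ m₂ θ *ᵥ ones m₁ m₂ = (1 / lam3 m₁ m₂ θ) • ones m₁ m₂ := by
  have n1 : 0 < (m₁ : ℝ) := by positivity
  have n2 : 0 < (m₂ : ℝ) := by positivity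
  unfold W
  simp only [Matrix.add_mulVec, Matrix.smul_mulVec, Matrix.one_mulVec, R_mulVec, C_mulVec,
    J_mulVec]
  ext p
  simp only [Pi.add_apply, Pi.smul_apply, ones, smul_eq_mul, rs, cs, tot, Finset.sum_const,
    Finset.card_univ, Fintype.card_fin, Fintype.card_prod, nsmul_eq_mul, mul_one]
  push_cast
  field_simp
  ring

lemma W_transpose {θ : Fin 3 → ℝ} : (W m₁ m₂ θ)ᵀ = W m₁ m₂ θ := by
  unfold W
  have hR : (Rm m₁ m₂)ᵀ = Rm m₁ m₂ := by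
    ext p q
    simp [Rm, eq_comm]
  have hC : (Cm m₁ m₂)ᵀ = Cm m₁ m₂ := by
    ext p q
    simp [Cm, eq_comm]
  have hJ : (Jm m₁ m₂)ᵀ = Jm m₁ m₂ := by
    ext p q
    simp [Jm]
  simp only [Matrix.transpose_add, Matrix.transpose_smul, Matrix.transpose_one, hR, hC, hJ]

lemma ones_dot {θ : Fin 3 → ℝ} (hm₁ : 0 < m₁) (hm₂ : 0 < m₂) :
    ones m₁ m₂ ⬝ᵥ W m₁ m₂ θ *ᵥ ones m₁ m₂ = (m₁ * m₂) / lam3 m₁ m₂ θ := by
  rw [W_ones hm₁ hm₂]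
  simp [dotProduct, ones]
  ring

lemma quad {θ : Fin 3 → ℝ} (h : Pos θ) (hm₁ : 0 < m₁) (hm₂ : 0 < m₂) (y : Cell m₁ m₂ → ℝ) :
    y ⬝ᵥ Pmat m₁ m₂ θ *ᵥ y = ∑ k, SS y k / lam m₁ m₂ θ k := by
  have n1 : 0 < (m₁ : ℝ) := by positivity
  have n2 : 0 < (m₂ : ℝ) := by positivity
  have l0 := (lam_pos (m₁ := m₁) (m₂ := m₂) h 0)
  have l1 := (lam_pos (m₁ := m₁) (m₂ := m₂) h 1)
  have l2 := (lam_pos (m₁ := m₁) (m₂ := m₂) h 2)
  have l3 := (lam3_pos (m₁ := m₁) (m₂ := m₂) h)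
  unfold Pmat
  rw [V_inv h hm₁ hm₂, ones_dot hm₁ hm₂]
  have e1 : ones m₁ m₂ ᵥ* W m₁ m₂ θ = (1 / lam3 m₁ m₂ θ) • ones m₁ m₂ := by
    rw [← W_transpose, Matrix.vecMul_transpose, W_ones hm₁ hm₂]
  rw [e1, W_ones hm₁ hm₂]
  have e2 : Matrix.vecMulVec ((1 / lam3 m₁ m₂ θ) • ones m₁ m₂) ((1 / lam3 m₁ m₂ θ) • ones m₁ m₂)
      = (1 / lam3 m₁ m₂ θ) ^ 2 • Jm m₁ m₂ := by
    ext p q
    simp [Matrix.vecMulVec_apply, ones, Jm, sq]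
  rw [e2]
  unfold W
  simp only [Matrix.sub_mulVec, Matrix.add_mulVec, Matrix.smul_mulVec, Matrix.one_mulVec,
    dotProduct_add, dotProduct_sub, dotProduct_smul, dot_R, dot_C, dot_J, smul_eq_mul]
  rw [Fin.sum_univ_three]
  have e3 : y ⬝ᵥ y = ∑ p, y p ^ 2 := by
    unfold dotProduct
    exact Finset.sum_congr rfl fun p _ => (sq _).symm
  rw [e3]
  simp only [SS, Matrix.cons_val_zero, Matrix.cons_val_one, Matrix.cons_val]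
  generalize lam m₁ m₂ θ 0 = x0 at *
  generalize lam m₁ m₂ θ 1 = x1 at *
  generalize lam m₁ m₂ θ 2 = x2 at *
  generalize lam3 m₁ m₂ θ = x3 at *
  field_simp
  ring

/-- constant term -/
noncomputable def cst (m₁ m₂ : ℕ) : ℝ := -((m₁ * m₂ - 1 : ℝ) / 2) * Real.log (2 * Real.pi)

lemma reml_eq {θ : Fin 3 → ℝ} (h : Pos θ) (hm₁ : 0 < m₁) (hm₂ : 0 < m₂)
    (y : Cell m₁ m₂ → ℝ) : reml m₁ m₂ y θ = cst m₁ m₂ -
      1 / 2 * ∑ k, (nn m₁ m₂ k * Real.log (lam m₁ m₂ θ k) + SS y k / lam m₁ m₂ θ k) := by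
  have n1 : 0 < (m₁ : ℝ) := by positivity
  have n2 : 0 < (m₂ : ℝ) := by positivity
  have l3 := (lam3_pos (m₁ := m₁) (m₂ := m₂) h)
  unfold reml
  rw [quad h hm₁ hm₂, V_inv h hm₁ hm₂, ones_dot hm₁ hm₂, log_det h hm₁ hm₂,
    Real.log_div (by positivity) (by positivity), Finset.sum_add_distrib]
  simp only [Fin.sum_univ_three, nn, Matrix.cons_val_zero, Matrix.cons_val_one, Matrix.cons_val,
    cst]
  ring

/-- the matrix `∂λ/∂θ` -/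
def L (m₁ m₂ : ℕ) : Matrix (Fin 3) (Fin 3) ℝ := !![1, 0, 0; 1, m₂, 0; 1, 0, m₁]

lemma lam_update (θ : Fin 3 → ℝ) (j k : Fin 3) (t : ℝ) :
    lam m₁ m₂ (Function.update θ j t) k = lam m₁ m₂ θ k + L m₁ m₂ k j * (t - θ j) := by
  fin_cases j <;> fin_cases k <;> simp [lam, L, Function.update] <;> ring

lemma hasDeriv_lam (θ : Fin 3 → ℝ) (j k : Fin 3) :
    HasDerivAt (fun t => lam m₁ m₂ (Function.update θ j t) k) (L m₁ m₂ k j) (θ j) := by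
  simp only [lam_update]
  have h := (((hasDerivAt_id (θ j)).sub_const (θ j)).const_mul (L m₁ m₂ k j)).const_add
    (lam m₁ m₂ θ k)
  simpa using h

lemma Pos_update {θ : Fin 3 → ℝ} (h : Pos θ) (k : Fin 3) :
    ∀ᶠ t in 𝓝 (θ k), Pos (Function.update θ k t) := by
  filter_upwards [Ioi_mem_nhds (h k)] with t ht i
  by_cases hi : i = k
  · subst hi
    simpa using ht
  · simpa [Function.update, hi] using h i

lemma pd_congr {f g : (Fin 3 → ℝ) → ℝ} (hfg : ∀ θ, Pos θ → f θ = g θ) {θ : Fin 3 → ℝ}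
    (h : Pos θ) (k : Fin 3) : pd f k θ = pd g k θ := by
  unfold pd
  refine Filter.EventuallyEq.deriv_eq ?_
  filter_upwards [Pos_update h k] with t ht using hfg _ ht

/-- `D_k = ∂l/∂λ_k` -/
noncomputable def D (y : Cell m₁ m₂ → ℝ) (θ : Fin 3 → ℝ) (k : Fin 3) : ℝ :=
  1 / 2 * (SS y k / lam m₁ m₂ θ k ^ 2 - nn m₁ m₂ k / lam m₁ m₂ θ k)

lemma pd_reml {θ : Fin 3 → ℝ} (h : Pos θ) (hm₁ : 0 < m₁) (hm₂ : 0 < m₂)
    (y : Cell m₁ m₂ → ℝ) (j : Fin 3) :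
    pd (reml m₁ m₂ y) j θ = ∑ k, L m₁ m₂ k j * D y θ k := by
  rw [pd_congr (fun θ hθ => reml_eq hθ hm₁ hm₂ y) h]
  unfold pd
  apply HasDerivAt.deriv
  have h1 : ∀ k, HasDerivAt (fun t => nn m₁ m₂ k * Real.log (lam m₁ m₂ (Function.update θ j t) k)
      + SS y k / lam m₁ m₂ (Function.update θ j t) k)
      (nn m₁ m₂ k * (L m₁ m₂ k j / lam m₁ m₂ θ k) +
        (0 * lam m₁ m₂ θ k - SS y k * L m₁ m₂ k j) / lam m₁ m₂ θ k ^ 2) (θ j) := by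
    intro k
    have hne : lam m₁ m₂ (Function.update θ j (θ j)) k ≠ 0 := by
      rw [Function.update_eq_self]
      exact (lam_pos h k).ne'
    have h2 := ((hasDeriv_lam (m₁ := m₁) (m₂ := m₂) θ j k).log hne).const_mul (nn m₁ m₂ k)
    have h3 := (hasDerivAt_const (θ j) (SS y k)).div
      (hasDeriv_lam (m₁ := m₁) (m₂ := m₂) θ j k) hne
    have h4 := h2.add h3
    rw [Function.update_eq_self] at h4
    exact h4
  have h5 := ((HasDerivAt.fun_sum fun k (_ : k ∈ Finset.univ) => h1 k).const_mul (1 / 2)).const_sub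
    (cst m₁ m₂)
  convert h5 using 1
  rw [Finset.mul_sum, ← Finset.sum_neg_distrib]
  refine Finset.sum_congr rfl fun k _ => ?_
  have := lam_pos (m₁ := m₁) (m₂ := m₂) h k
  unfold D
  field_simp
  ring

lemma pd2_reml {θ : Fin 3 → ℝ} (h : Pos θ) (hm₁ : 0 < m₁) (hm₂ : 0 < m₂)
    (y : Cell m₁ m₂ → ℝ) (j l : Fin 3) :
    pd (pd (reml m₁ m₂ y) l) j θ = ∑ k, L m₁ m₂ k l * (L m₁ m₂ k j *
      (1 / 2 * (nn m₁ m₂ k / lam m₁ m₂ θ k ^ 2 - 2 * SS y k / lam m₁ m₂ θ k ^ 3))) := by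
  rw [pd_congr (fun θ hθ => pd_reml hθ hm₁ hm₂ y l) h]
  unfold pd
  apply HasDerivAt.deriv
  refine HasDerivAt.fun_sum fun k _ => ?_
  refine HasDerivAt.const_mul _ ?_
  unfold D
  have hne : lam m₁ m₂ (Function.update θ j (θ j)) k ≠ 0 := by
    rw [Function.update_eq_self]
    exact (lam_pos h k).ne'
  have h3 := (hasDerivAt_const (θ j) (SS y k)).div
    ((hasDeriv_lam (m₁ := m₁) (m₂ := m₂) θ j k).pow 2) (pow_ne_zero 2 hne)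
  have h4 := (hasDerivAt_const (θ j) (nn m₁ m₂ k)).div
    (hasDeriv_lam (m₁ := m₁) (m₂ := m₂) θ j k) hne
  have h5 := (h3.sub h4).const_mul (1 / 2)
  have hpos := lam_pos (m₁ := m₁) (m₂ := m₂) h k
  have key : L m₁ m₂ k j *
      (1 / 2 * (nn m₁ m₂ k / lam m₁ m₂ θ k ^ 2 - 2 * SS y k / lam m₁ m₂ θ k ^ 3)) =
      1 / 2 * ((0 * (lam m₁ m₂ (Function.update θ j (θ j)) k) ^ 2 -
            SS y k * ((2 : ℕ) * lam m₁ m₂ (Function.update θ j (θ j)) k ^ (2 - 1) *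
              L m₁ m₂ k j)) /
          ((lam m₁ m₂ (Function.update θ j (θ j)) k) ^ 2) ^ 2 -
        (0 * lam m₁ m₂ (Function.update θ j (θ j)) k - nn m₁ m₂ k * L m₁ m₂ k j) /
          lam m₁ m₂ (Function.update θ j (θ j)) k ^ 2) := by
    rw [Function.update_eq_self]
    push_cast
    field_simp
    ring
  rw [key]
  exact h5

/-- linear forms -/
noncomputable def X₁ (a₁ : Fin m₁ → ℝ) (y : Cell m₁ m₂ → ℝ) : ℝ :=
  ∑ i, a₁ i * (rs y i / m₂ - grand y)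
/-- linear forms -/
noncomputable def X₂ (a₂ : Fin m₂ → ℝ) (y : Cell m₁ m₂ → ℝ) : ℝ :=
  ∑ j, a₂ j * (cs y j / m₁ - grand y)

lemma Zt_mulVec (x : Cell m₁ m₂ → ℝ) : (Z m₁ m₂)ᵀ *ᵥ x = Sum.elim (rs x) (cs x) := by
  ext q
  rcases q with i | j
  · rw [Matrix.mulVec, dotProduct, Fintype.sum_prod_type, Finset.sum_comm]
    simp [Z, rs]
  · rw [Matrix.mulVec, dotProduct, Fintype.sum_prod_type]
    simp [Z, cs]

lemma blup_eq {θ : Fin 3 → ℝ} (h : Pos θ) (hm₁ : 0 < m₁) (hm₂ : 0 < m₂)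
    (a₀ : ℝ) (a₁ : Fin m₁ → ℝ) (a₂ : Fin m₂ → ℝ) (y : Cell m₁ m₂ → ℝ) :
    blup m₁ m₂ a₀ a₁ a₂ y θ = a₀ * grand y +
      ((1 - lam m₁ m₂ θ 0 / lam m₁ m₂ θ 1) * X₁ a₁ y +
        (1 - lam m₁ m₂ θ 0 / lam m₁ m₂ θ 2) * X₂ a₂ y) := by
  have n1 : 0 < (m₁ : ℝ) := by positivity
  have n2 : 0 < (m₂ : ℝ) := by positivity
  have l0 := (lam_pos (m₁ := m₁) (m₂ := m₂) h 0)
  have l1 := (lam_pos (m₁ := m₁) (m₂ := m₂) h 1)
  have l2 := (lam_pos (m₁ := m₁) (m₂ := m₂) h 2)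
  have h0 := h 0
  have h1 := h 1
  have h2 := h 2
  unfold blup
  congr 1
  rw [V_inv h hm₁ hm₂, ← Matrix.mulVec_mulVec, ← Matrix.mulVec_mulVec, Zt_mulVec]
  set r : Cell m₁ m₂ → ℝ := y - grand y • ones m₁ m₂ with hr
  have hrs : ∀ i, rs r i = m₂ * (rs y i / m₂ - grand y) := by
    intro i
    simp only [hr, rs, Pi.sub_apply, Pi.smul_apply, ones, smul_eq_mul, mul_one,
      Finset.sum_sub_distrib, Finset.sum_const, Finset.card_univ, Fintype.card_fin, nsmul_eq_mul]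
    field_simp
  have hcs : ∀ j, cs r j = m₁ * (cs y j / m₁ - grand y) := by
    intro j
    simp only [hr, cs, Pi.sub_apply, Pi.smul_apply, ones, smul_eq_mul, mul_one,
      Finset.sum_sub_distrib, Finset.sum_const, Finset.card_univ, Fintype.card_fin, nsmul_eq_mul]
    field_simp
  have htot : tot r = 0 := by
    simp only [hr, tot, Pi.sub_apply, Pi.smul_apply, ones, smul_eq_mul, mul_one,
      Finset.sum_sub_distrib, Finset.sum_const, Finset.card_univ, Fintype.card_fin, nsmul_eq_mul,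
      Fintype.card_prod, grand]
    push_cast
    field_simp
    ring
  have hW : ∀ p, (W m₁ m₂ θ *ᵥ r) p = 1 / lam m₁ m₂ θ 0 * r p +
      (1 / lam m₁ m₂ θ 1 - 1 / lam m₁ m₂ θ 0) / m₂ * rs r p.1 +
      (1 / lam m₁ m₂ θ 2 - 1 / lam m₁ m₂ θ 0) / m₁ * cs r p.2 := by
    intro p
    unfold W
    simp only [Matrix.add_mulVec, Matrix.smul_mulVec, Matrix.one_mulVec, R_mulVec, C_mulVec,
      J_mulVec, htot, Pi.add_apply, Pi.smul_apply, smul_eq_mul, mul_zero, add_zero]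
  have hWr : ∀ i, rs (W m₁ m₂ θ *ᵥ r) i = 1 / lam m₁ m₂ θ 1 * rs r i := by
    intro i
    have e1 : rs (W m₁ m₂ θ *ᵥ r) i = 1 / lam m₁ m₂ θ 0 * rs r i +
      (1 / lam m₁ m₂ θ 1 - 1 / lam m₁ m₂ θ 0) / m₂ * (m₂ * rs r i) +
      (1 / lam m₁ m₂ θ 2 - 1 / lam m₁ m₂ θ 0) / m₁ * ∑ j, cs r j := by
      conv_lhs => unfold rs
      simp only [hW, Finset.sum_add_distrib, ← Finset.mul_sum, Finset.sum_const,
        Finset.card_univ, Fintype.card_fin, nsmul_eq_mul]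
      rfl
    rw [e1, sum_cs, htot]
    field_simp
    ring
  have hWc : ∀ j, cs (W m₁ m₂ θ *ᵥ r) j = 1 / lam m₁ m₂ θ 2 * cs r j := by
    intro j
    have e1 : cs (W m₁ m₂ θ *ᵥ r) j = 1 / lam m₁ m₂ θ 0 * cs r j +
      (1 / lam m₁ m₂ θ 1 - 1 / lam m₁ m₂ θ 0) / m₂ * ∑ i, rs r i +
      (1 / lam m₁ m₂ θ 2 - 1 / lam m₁ m₂ θ 0) / m₁ * (m₁ * cs r j) := by
      conv_lhs => unfold cs
      simp only [hW, Finset.sum_add_distrib, ← Finset.mul_sum, Finset.sum_const,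
        Finset.card_univ, Fintype.card_fin, nsmul_eq_mul]
      rfl
    rw [e1, sum_rs, htot]
    field_simp
    ring
  have hG : G m₁ m₂ θ *ᵥ Sum.elim (rs (W m₁ m₂ θ *ᵥ r)) (cs (W m₁ m₂ θ *ᵥ r)) =
      Sum.elim (fun i => θ 1 * (1 / lam m₁ m₂ θ 1 * rs r i))
        (fun j => θ 2 * (1 / lam m₁ m₂ θ 2 * cs r j)) := by
    unfold G
    ext q
    rw [Matrix.mulVec_diagonal]
    rcases q with i | j
    · simp only [Sum.elim_inl, hWr]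
    · simp only [Sum.elim_inr, hWc]
  rw [hG, dotProduct, Fintype.sum_sum_type]
  simp only [Sum.elim_inl, Sum.elim_inr, hrs, hcs]
  unfold X₁ X₂
  rw [Finset.mul_sum, Finset.mul_sum]
  congr 1
  · refine Finset.sum_congr rfl fun i _ => ?_
    have e : 1 - lam m₁ m₂ θ 0 / lam m₁ m₂ θ 1 = m₂ * θ 1 / lam m₁ m₂ θ 1 := by
      field_simp
      simp [lam]
    rw [e]
    ring
  · refine Finset.sum_congr rfl fun i _ => ?_
    have e : 1 - lam m₁ m₂ θ 0 / lam m₁ m₂ θ 2 = m₁ * θ 2 / lam m₁ m₂ θ 2 := by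
      field_simp
      simp [lam]
    rw [e]
    ring

/-- `η_k = ∂ζ̃/∂λ_k` -/
noncomputable def eta (a₁ : Fin m₁ → ℝ) (a₂ : Fin m₂ → ℝ) (y : Cell m₁ m₂ → ℝ)
    (θ : Fin 3 → ℝ) : Fin 3 → ℝ :=
  ![-(X₁ a₁ y / lam m₁ m₂ θ 1) - X₂ a₂ y / lam m₁ m₂ θ 2,
    lam m₁ m₂ θ 0 * X₁ a₁ y / lam m₁ m₂ θ 1 ^ 2,
    lam m₁ m₂ θ 0 * X₂ a₂ y / lam m₁ m₂ θ 2 ^ 2]

lemma pd_blup {θ : Fin 3 → ℝ} (h : Pos θ) (hm₁ : 0 < m₁) (hm₂ : 0 < m₂)
    (a₀ : ℝ) (a₁ : Fin m₁ → ℝ) (a₂ : Fin m₂ → ℝ) (y : Cell m₁ m₂ → ℝ) (j : Fin 3) :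
    pd (blup m₁ m₂ a₀ a₁ a₂ y) j θ = ∑ k, L m₁ m₂ k j * eta a₁ a₂ y θ k := by
  rw [pd_congr (fun θ hθ => blup_eq hθ hm₁ hm₂ a₀ a₁ a₂ y) h]
  unfold pd
  apply HasDerivAt.deriv
  have hne : ∀ k, lam m₁ m₂ (Function.update θ j (θ j)) k ≠ 0 := by
    intro k
    rw [Function.update_eq_self]
    exact (lam_pos h k).ne'
  have h1 := ((((hasDeriv_lam (m₁ := m₁) (m₂ := m₂) θ j 0).div
    (hasDeriv_lam (m₁ := m₁) (m₂ := m₂) θ j 1) (hne 1)).const_sub 1).mul_const (X₁ a₁ y))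
  have h2 := ((((hasDeriv_lam (m₁ := m₁) (m₂ := m₂) θ j 0).div
    (hasDeriv_lam (m₁ := m₁) (m₂ := m₂) θ j 2) (hne 2)).const_sub 1).mul_const (X₂ a₂ y))
  have h3 := (h1.add h2).const_add (a₀ * grand y)
  rw [Function.update_eq_self] at h3
  have l1 := (lam_pos (m₁ := m₁) (m₂ := m₂) h 1)
  have l2 := (lam_pos (m₁ := m₁) (m₂ := m₂) h 2)
  have key : ∑ k, L m₁ m₂ k j * eta a₁ a₂ y θ k =
      -((L m₁ m₂ 0 j * lam m₁ m₂ θ 1 - lam m₁ m₂ θ 0 * L m₁ m₂ 1 j) / lam m₁ m₂ θ 1 ^ 2) *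
        X₁ a₁ y +
      -((L m₁ m₂ 0 j * lam m₁ m₂ θ 2 - lam m₁ m₂ θ 0 * L m₁ m₂ 2 j) / lam m₁ m₂ θ 2 ^ 2) *
        X₂ a₂ y := by
    simp only [Fin.sum_univ_three, eta, Matrix.cons_val_zero, Matrix.cons_val_one,
      Matrix.cons_val]
    generalize lam m₁ m₂ θ 0 = x0 at *
    generalize lam m₁ m₂ θ 1 = x1 at *
    generalize lam m₁ m₂ θ 2 = x2 at *
    field_simp
    ring
  rw [key]
  exact h3

lemma alg (M : Matrix (Fin 3) (Fin 3) ℝ) (hM : M.det ≠ 0) (δ η d : Fin 3 → ℝ)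
    (hδ : ∀ k, δ k ≠ 0) :
    (Mᵀ *ᵥ η) ⬝ᵥ (-(Mᵀ * Matrix.diagonal δ * M))⁻¹ *ᵥ (Mᵀ *ᵥ d) = -∑ k, η k * (d k / δ k) := by
  set A := -(Mᵀ * Matrix.diagonal δ * M) with hA
  have hdet : IsUnit A.det := by
    rw [hA, Matrix.det_neg, Matrix.det_mul, Matrix.det_mul, Matrix.det_transpose,
      Matrix.det_diagonal]
    refine isUnit_iff_ne_zero.2 (mul_ne_zero (by simp) (mul_ne_zero (mul_ne_zero hM ?_) hM))
    exact Finset.prod_ne_zero_iff.2 fun k _ => hδ k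
  have hMu : IsUnit M.det := isUnit_iff_ne_zero.2 hM
  set x : Fin 3 → ℝ := -(M⁻¹ *ᵥ fun k => d k / δ k) with hx
  have hMx : M *ᵥ x = -fun k => d k / δ k := by
    rw [hx, Matrix.mulVec_neg, Matrix.mulVec_mulVec, Matrix.mul_nonsing_inv M hMu,
      Matrix.one_mulVec]
  have hAx : A *ᵥ x = Mᵀ *ᵥ d := by
    rw [hA, Matrix.neg_mulVec, ← Matrix.mulVec_mulVec, ← Matrix.mulVec_mulVec, hMx,
      Matrix.mulVec_neg, Matrix.mulVec_neg, neg_neg]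
    congr 1
    ext k
    rw [Matrix.mulVec_diagonal]
    field_simp [hδ k]
  rw [← hAx, Matrix.mulVec_mulVec, Matrix.nonsing_inv_mul A hdet, Matrix.one_mulVec,
    Matrix.mulVec_transpose, ← Matrix.dotProduct_mulVec, hMx, dotProduct_neg]
  rfl

end Pool.Agent.V1184.CR
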