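import Mathlib

set_option autoImplicit false

open MeasureTheory ProbabilityTheory Filter Topology Matrix

namespace Pool.Agent.V1184.CR

/-- the observation cells `(i, j)` -/
abbrev Cell (m₁ m₂ : ℕ) := Fin m₁ × Fin m₂

/-- the random effects `(u, v)` -/
abbrev Eff (m₁ m₂ : ℕ) := Fin m₁ ⊕ Fin m₂

/-- `Z = (I ⊗ 1, 1 ⊗ I)`. -/
def Z (m₁ m₂ : ℕ) : Matrix (Cell m₁ m₂) (Eff m₁ m₂) ℝ :=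
  Matrix.of fun p q =>
    Sum.elim (fun i => if p.1 = i then 1 else 0) (fun j => if p.2 = j then 1 else 0) q

/-- `G = diag(σ₁² I, σ₂² I)`, with `θ = (σ₀², σ₁², σ₂²)`. -/
def G (m₁ m₂ : ℕ) (θ : Fin 3 → ℝ) : Matrix (Eff m₁ m₂) (Eff m₁ m₂) ℝ :=
  Matrix.diagonal (Sum.elim (fun _ => θ 1) (fun _ => θ 2))

/-- `V = σ₀² I + Z G Z'`. -/
def V (m₁ m₂ : ℕ) (θ : Fin 3 → ℝ) : Matrix (Cell m₁ m₂) (Cell m₁ m₂) ℝ :=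
  θ 0 • (1 : Matrix (Cell m₁ m₂) (Cell m₁ m₂) ℝ) + Z m₁ m₂ * G m₁ m₂ θ * (Z m₁ m₂)ᵀ

/-- the vector `1` -/
def ones (m₁ m₂ : ℕ) : Cell m₁ m₂ → ℝ := fun _ => 1

/-- the grand mean -/
noncomputable def grand {m₁ m₂ : ℕ} (y : Cell m₁ m₂ → ℝ) : ℝ := (∑ p, y p) / (m₁ * m₂)

/-- `P = V⁻¹ - V⁻¹ 1 (1' V⁻¹ 1)⁻¹ 1' V⁻¹`. -/
noncomputable def Pmat (m₁ m₂ : ℕ) (θ : Fin 3 → ℝ) : Matrix (Cell m₁ m₂) (Cell m₁ m₂) ℝ :=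
  (V m₁ m₂ θ)⁻¹ - (ones m₁ m₂ ⬝ᵥ (V m₁ m₂ θ)⁻¹ *ᵥ ones m₁ m₂)⁻¹ •
    Matrix.vecMulVec ((V m₁ m₂ θ)⁻¹ *ᵥ ones m₁ m₂) (ones m₁ m₂ ᵥ* (V m₁ m₂ θ)⁻¹)

/-- The Gaussian restricted (REML) log-likelihood of `y` (fixed effect design `X = 1`):
`-(N-1)/2 log 2π + 1/2 log |X'X| - 1/2 log |V| - 1/2 log |X' V⁻¹ X| - 1/2 y' P y`. -/
noncomputable def reml (m₁ m₂ : ℕ) (y : Cell m₁ m₂ → ℝ) (θ : Fin 3 → ℝ) : ℝ :=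
  -((m₁ * m₂ - 1 : ℝ) / 2) * Real.log (2 * Real.pi) + 1 / 2 * Real.log (m₁ * m₂)
    - 1 / 2 * Real.log (V m₁ m₂ θ).det
    - 1 / 2 * Real.log (ones m₁ m₂ ⬝ᵥ (V m₁ m₂ θ)⁻¹ *ᵥ ones m₁ m₂)
    - 1 / 2 * (y ⬝ᵥ Pmat m₁ m₂ θ *ᵥ y)

/-- The BLUP `a₀ ȳ + a' G Z' V⁻¹ (y - ȳ 1)` of `a₀ μ + a₁' u + a₂' v`. -/
noncomputable def blup (m₁ m₂ : ℕ) (a₀ : ℝ) (a₁ : Fin m₁ → ℝ) (a₂ : Fin m₂ → ℝ)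
    (y : Cell m₁ m₂ → ℝ) (θ : Fin 3 → ℝ) : ℝ :=
  a₀ * grand y + Sum.elim a₁ a₂ ⬝ᵥ
    (G m₁ m₂ θ * (Z m₁ m₂)ᵀ * (V m₁ m₂ θ)⁻¹) *ᵥ (y - grand y • ones m₁ m₂)

/-- the partial derivative `∂f/∂θ_k` at `θ` -/
noncomputable def pd (f : (Fin 3 → ℝ) → ℝ) (k : Fin 3) (θ : Fin 3 → ℝ) : ℝ :=
  deriv (fun t => f (Function.update θ k t)) (θ k)

/-- The sample space of all `u_i`, `v_j`, `e_ij`. -/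
abbrev Idx (m₁ m₂ : ℕ) := Fin m₁ ⊕ Fin m₂ ⊕ (Fin m₁ × Fin m₂)

/-- laws of the coordinates: `F 1` for the `u_i`, `F 2` for the `v_j`, `F 0` for the `e_ij` -/
noncomputable def law {m₁ m₂ : ℕ} (F : Fin 3 → Measure ℝ) : Idx m₁ m₂ → Measure ℝ :=
  Sum.elim (fun _ => F 1) (Sum.elim (fun _ => F 2) (fun _ => F 0))

/-- the joint law of all `u_i`, `v_j`, `e_ij`: product measure -/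
noncomputable def joint (m₁ m₂ : ℕ) (F : Fin 3 → Measure ℝ) : Measure (Idx m₁ m₂ → ℝ) :=
  Measure.pi (law F)

/-- the data `y_ij = μ + u_i + v_j + e_ij` -/
def obs {m₁ m₂ : ℕ} (μ : ℝ) (ω : Idx m₁ m₂ → ℝ) : Cell m₁ m₂ → ℝ :=
  fun p => μ + ω (Sum.inl p.1) + ω (Sum.inr (Sum.inl p.2)) + ω (Sum.inr (Sum.inr p))

/-- `h = ∂ζ̃/∂θ` -/
noncomputable def hvec (m₁ m₂ : ℕ) (a₀ : ℝ) (a₁ : Fin m₁ → ℝ) (a₂ : Fin m₂ → ℝ)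
    (θ : Fin 3 → ℝ) (y : Cell m₁ m₂ → ℝ) : Fin 3 → ℝ :=
  fun k => pd (blup m₁ m₂ a₀ a₁ a₂ y) k θ

/-- the score `b = ∂l/∂θ` -/
noncomputable def score (m₁ m₂ : ℕ) (θ : Fin 3 → ℝ) (y : Cell m₁ m₂ → ℝ) : Fin 3 → ℝ :=
  fun k => pd (reml m₁ m₂ y) k θ

/-- `A = E(∂²l/∂θ∂θ')` -/
noncomputable def Amat (m₁ m₂ : ℕ) (F : Fin 3 → Measure ℝ) (μ : ℝ) (θ : Fin 3 → ℝ) :
    Matrix (Fin 3) (Fin 3) ℝ :=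
  Matrix.of fun k l => ∫ ω, pd (pd (reml m₁ m₂ (obs μ ω)) l) k θ ∂(joint m₁ m₂ F)

/-- `g₃ = E (h' A⁻¹ b)²` -/
noncomputable def g3 (m₁ m₂ : ℕ) (F : Fin 3 → Measure ℝ) (μ : ℝ) (θ : Fin 3 → ℝ)
    (a₀ : ℝ) (a₁ : Fin m₁ → ℝ) (a₂ : Fin m₂ → ℝ) : ℝ :=
  ∫ ω, (hvec m₁ m₂ a₀ a₁ a₂ θ (obs μ ω) ⬝ᵥ
    (Amat m₁ m₂ F μ θ)⁻¹ *ᵥ score m₁ m₂ θ (obs μ ω)) ^ 2 ∂(joint m₁ m₂ F)

/-- `F₀, F₁, F₂` are probability laws with mean `0`, variances `θ = (σ₀², σ₁², σ₂²)` (all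
positive), fourth moments `κ` and finite eighth moments. -/
structure Laws (F : Fin 3 → Measure ℝ) (θ κ : Fin 3 → ℝ) : Prop where
  prob : ∀ k, IsProbabilityMeasure (F k)
  mom8 : ∀ k, Integrable (fun x : ℝ => x ^ 8) (F k)
  mean : ∀ k, ∫ x, x ∂(F k) = 0
  var : ∀ k, ∫ x, x ^ 2 ∂(F k) = θ k
  fourth : ∀ k, ∫ x, x ^ 4 ∂(F k) = κ k
  pos : ∀ k, 0 < θ k

/-- the Euclidean norm of a coefficient vector -/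
noncomputable def enorm2 {m : ℕ} (a : Fin m → ℝ) : ℝ := Real.sqrt (∑ i, a i ^ 2)

end Pool.Agent.V1184.CR
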