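import Pool.Agent.V1184.CR.Bound

set_option autoImplicit false

open MeasureTheory ProbabilityTheory Filter Topology Matrix
open scoped ENNReal

namespace Pool.Agent.V1184.CR

variable {m₁ m₂ : ℕ} {F : Fin 3 → Measure ℝ} {θ κ : Fin 3 → ℝ}

/-! ### the linear forms -/

lemma lin_sum {ι : Type} (s : Finset ι) (a : ι → ℝ) (c : ι → Idx m₁ m₂ → ℝ)
    (ω : Idx m₁ m₂ → ℝ) : lin (fun k => ∑ i ∈ s, a i * c i k) ω = ∑ i ∈ s, a i * lin (c i) ω := by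
  unfold lin
  simp only [Finset.sum_mul, Finset.mul_sum]
  rw [Finset.sum_comm]
  refine Finset.sum_congr rfl fun i _ => Finset.sum_congr rfl fun k _ => by ring

lemma lin_sub_div (c d : Idx m₁ m₂ → ℝ) (a b : ℝ) (ω : Idx m₁ m₂ → ℝ) :
    lin (fun k => c k / a - d k / b) ω = lin c ω / a - lin d ω / b := by
  unfold lin
  rw [Finset.sum_div, Finset.sum_div, ← Finset.sum_sub_distrib]
  refine Finset.sum_congr rfl fun k _ => by ring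

/-- coefficients of `X₁` -/
noncomputable def c₁ (a₁ : Fin m₁ → ℝ) : Idx m₁ m₂ → ℝ :=
  fun k => ∑ i, a₁ i * (dR i k / m₂ - dT k / (m₁ * m₂))
/-- coefficients of `X₂` -/
noncomputable def c₂ (a₂ : Fin m₂ → ℝ) : Idx m₁ m₂ → ℝ :=
  fun k => ∑ j, a₂ j * (dC j k / m₁ - dT k / (m₁ * m₂))

lemma X₁_obs (hm₁ : 0 < m₁) (hm₂ : 0 < m₂) (μ : ℝ) (a₁ : Fin m₁ → ℝ) (ω : Idx m₁ m₂ → ℝ) :
    X₁ a₁ (obs μ ω) = lin (c₁ a₁) ω := by
  have n1 : 0 < (m₁ : ℝ) := by positivity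
  have n2 : 0 < (m₂ : ℝ) := by positivity
  unfold c₁
  rw [lin_sum]
  unfold X₁
  refine Finset.sum_congr rfl fun i _ => ?_
  rw [lin_sub_div, rs_obs]
  have e : grand (obs μ ω) = tot (obs (m₁ := m₁) (m₂ := m₂) μ ω) / (m₁ * m₂) := rfl
  rw [e, tot_obs]
  congr 1
  field_simp
  ring

lemma X₂_obs (hm₁ : 0 < m₁) (hm₂ : 0 < m₂) (μ : ℝ) (a₂ : Fin m₂ → ℝ) (ω : Idx m₁ m₂ → ℝ) :
    X₂ a₂ (obs μ ω) = lin (c₂ a₂) ω := by
  have n1 : 0 < (m₁ : ℝ) := by positivity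
  have n2 : 0 < (m₂ : ℝ) := by positivity
  unfold c₂
  rw [lin_sum]
  unfold X₂
  refine Finset.sum_congr rfl fun i _ => ?_
  rw [lin_sub_div, cs_obs]
  have e : grand (obs μ ω) = tot (obs (m₁ := m₁) (m₂ := m₂) μ ω) / (m₁ * m₂) := rfl
  rw [e, tot_obs]
  congr 1
  field_simp
  ring

lemma sum_sq_center {m : ℕ} (hm : 0 < m) (a : Fin m → ℝ) :
    ∑ i, (a i - (∑ i, a i) / m) ^ 2 ≤ ∑ i, a i ^ 2 := by
  have n1 : 0 < (m : ℝ) := by positivity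
  have e : ∑ i, (a i - (∑ i, a i) / m) ^ 2 = ∑ i, a i ^ 2 - (∑ i, a i) ^ 2 / m := by
    simp only [sub_sq, Finset.sum_add_distrib, Finset.sum_sub_distrib, Finset.sum_const,
      Finset.card_univ, Fintype.card_fin, nsmul_eq_mul]
    rw [← Finset.sum_mul, ← Finset.mul_sum]
    field_simp
    ring
  rw [e]
  have : 0 ≤ (∑ i, a i) ^ 2 / m := by positivity
  linarith

lemma c₁_eq (a₁ : Fin m₁ → ℝ) (k : Idx m₁ m₂) :
    c₁ a₁ k = (∑ i, a₁ i * dR i k) / m₂ - (∑ i, a₁ i) * dT k / (m₁ * m₂) := by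
  unfold c₁
  rw [Finset.sum_div, Finset.sum_mul, Finset.sum_div, ← Finset.sum_sub_distrib]
  refine Finset.sum_congr rfl fun i _ => by ring

lemma c₂_eq (a₂ : Fin m₂ → ℝ) (k : Idx m₁ m₂) :
    c₂ a₂ k = (∑ i, a₂ i * dC i k) / m₁ - (∑ i, a₂ i) * dT k / (m₁ * m₂) := by
  unfold c₂
  rw [Finset.sum_div, Finset.sum_mul, Finset.sum_div, ← Finset.sum_sub_distrib]
  refine Finset.sum_congr rfl fun i _ => by ring

lemma c₁_sq (hm₁ : 0 < m₁) (hm₂ : 0 < m₂) (a₁ : Fin m₁ → ℝ) :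
    ∑ k, c₁ (m₂ := m₂) a₁ k ^ 2 ≤ 2 * ∑ i, a₁ i ^ 2 := by
  have n1 : 0 < (m₁ : ℝ) := by positivity
  have n2 : 0 < (m₂ : ℝ) := by positivity
  have n2' : (1 : ℝ) ≤ m₂ := by exact_mod_cast hm₂
  have e1 : ∀ i, c₁ (m₂ := m₂) a₁ (Sum.inl i) = a₁ i - (∑ i, a₁ i) / m₁ := by
    intro i
    rw [c₁_eq]
    simp only [dR, dT, Sum.elim_inl, mul_ite, mul_zero, Finset.sum_ite_eq', Finset.mem_univ,
      if_true]
    field_simp
  have e2 : ∀ j, c₁ (m₂ := m₂) a₁ (Sum.inr (Sum.inl j)) = 0 := by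
    intro i
    rw [c₁_eq]
    simp only [dR, dT, Sum.elim_inl, Sum.elim_inr, mul_one]
    field_simp
    ring
  have e3 : ∀ q, c₁ (m₂ := m₂) a₁ (Sum.inr (Sum.inr q)) =
      (a₁ q.1 - (∑ i, a₁ i) / m₁) / m₂ := by
    intro i
    rw [c₁_eq]
    simp only [dR, dT, Sum.elim_inr, mul_one, mul_ite, mul_zero, Finset.sum_ite_eq',
      Finset.mem_univ, if_true]
    field_simp
  rw [sum_idx]
  simp only [e1, e2, e3]
  rw [Fintype.sum_prod_type]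
  simp only [Finset.sum_const, Finset.card_univ, Fintype.card_fin, nsmul_eq_mul, ne_eq,
    OfNat.ofNat_ne_zero, not_false_eq_true, zero_pow, mul_zero, zero_add, div_pow]
  have h := sum_sq_center hm₁ a₁
  have e4 : ∑ i, (m₂ : ℝ) * ((a₁ i - (∑ i, a₁ i) / m₁) ^ 2 / m₂ ^ 2) =
      (∑ i, (a₁ i - (∑ i, a₁ i) / m₁) ^ 2) / m₂ := by
    generalize (∑ i, a₁ i) / (m₁ : ℝ) = A
    rw [Finset.sum_div]
    refine Finset.sum_congr rfl fun i _ => ?_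
    field_simp
  rw [e4]
  have h0 : 0 ≤ ∑ i, (a₁ i - (∑ i, a₁ i) / m₁) ^ 2 := Finset.sum_nonneg fun i _ => sq_nonneg _
  have h1 : (∑ i, (a₁ i - (∑ i, a₁ i) / m₁) ^ 2) / m₂ ≤ ∑ i, (a₁ i - (∑ i, a₁ i) / m₁) ^ 2 :=
    div_le_self h0 n2'
  linarith

lemma c₂_sq (hm₁ : 0 < m₁) (hm₂ : 0 < m₂) (a₂ : Fin m₂ → ℝ) :
    ∑ k, c₂ (m₁ := m₁) a₂ k ^ 2 ≤ 2 * ∑ i, a₂ i ^ 2 := by
  have n1 : 0 < (m₁ : ℝ) := by positivity
  have n2 : 0 < (m₂ : ℝ) := by positivity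
  have n2' : (1 : ℝ) ≤ m₁ := by exact_mod_cast hm₁
  have e1 : ∀ i, c₂ (m₁ := m₁) a₂ (Sum.inr (Sum.inl i)) = a₂ i - (∑ i, a₂ i) / m₂ := by
    intro i
    rw [c₂_eq]
    simp only [dC, dT, Sum.elim_inl, Sum.elim_inr, mul_ite, mul_zero, Finset.sum_ite_eq',
      Finset.mem_univ, if_true]
    field_simp
  have e2 : ∀ j, c₂ (m₁ := m₁) a₂ (Sum.inl j) = 0 := by
    intro i
    rw [c₂_eq]
    simp only [dC, dT, Sum.elim_inl, mul_one]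
    field_simp
    ring
  have e3 : ∀ q, c₂ (m₁ := m₁) a₂ (Sum.inr (Sum.inr q)) =
      (a₂ q.2 - (∑ i, a₂ i) / m₂) / m₁ := by
    intro i
    rw [c₂_eq]
    simp only [dC, dT, Sum.elim_inr, mul_one, mul_ite, mul_zero, Finset.sum_ite_eq',
      Finset.mem_univ, if_true]
    field_simp
  rw [sum_idx]
  simp only [e1, e2, e3]
  rw [Fintype.sum_prod_type]
  simp only [Finset.sum_const, Finset.card_univ, Fintype.card_fin, nsmul_eq_mul, ne_eq,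
    OfNat.ofNat_ne_zero, not_false_eq_true, zero_pow, mul_zero, zero_add, div_pow]
  have h := sum_sq_center hm₂ a₂
  have e4 : (m₁ : ℝ) * ∑ i, ((a₂ i - (∑ i, a₂ i) / m₂) ^ 2 / (m₁ : ℝ) ^ 2) =
      (∑ i, (a₂ i - (∑ i, a₂ i) / m₂) ^ 2) / m₁ := by
    generalize (∑ i, a₂ i) / (m₂ : ℝ) = A
    rw [Finset.sum_div, Finset.mul_sum]
    refine Finset.sum_congr rfl fun i _ => ?_
    field_simp
  rw [e4]
  have h0 : 0 ≤ ∑ i, (a₂ i - (∑ i, a₂ i) / m₂) ^ 2 := Finset.sum_nonneg fun i _ => sq_nonneg _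
  have h1 : (∑ i, (a₂ i - (∑ i, a₂ i) / m₂) ^ 2) / m₁ ≤ ∑ i, (a₂ i - (∑ i, a₂ i) / m₂) ^ 2 :=
    div_le_self h0 n2'
  linarith

/-! ### the sums of squares -/

lemma SS_shift (hm₁ : 0 < m₁) (hm₂ : 0 < m₂) (μ : ℝ) (y : Cell m₁ m₂ → ℝ) (k : Fin 3) :
    SS y k = SS (fun p => y p - μ) k := by
  have n1 : 0 < (m₁ : ℝ) := by positivity
  have n2 : 0 < (m₂ : ℝ) := by positivity
  have hr : ∀ i, rs (fun p => y p - μ) i = rs y i - m₂ * μ := by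
    intro i
    simp [rs, Finset.sum_sub_distrib]
  have hc : ∀ i, cs (fun p => y p - μ) i = cs y i - m₁ * μ := by
    intro i
    simp [cs, Finset.sum_sub_distrib]
  have ht : tot (fun p => y p - μ) = tot y - (m₁ * m₂) * μ := by
    simp [tot, Finset.sum_sub_distrib]
  have e0 : ∑ p, (y p - μ) ^ 2 = ∑ p, y p ^ 2 - 2 * μ * tot y + (m₁ * m₂) * μ ^ 2 := by
    simp only [sub_sq, Finset.sum_add_distrib, Finset.sum_sub_distrib, Finset.sum_const,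
      Finset.card_univ, Fintype.card_fin, Fintype.card_prod, nsmul_eq_mul, tot]
    rw [← Finset.sum_mul, ← Finset.mul_sum]
    push_cast
    ring
  have e1 : ∑ i, (rs y i - m₂ * μ) ^ 2 = ∑ i, rs y i ^ 2 - 2 * m₂ * μ * tot y +
      m₁ * (m₂ * μ) ^ 2 := by
    rw [← sum_rs]
    simp only [sub_sq, Finset.sum_add_distrib, Finset.sum_sub_distrib, Finset.sum_const,
      Finset.card_univ, Fintype.card_fin, nsmul_eq_mul]
    rw [← Finset.sum_mul, ← Finset.mul_sum]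
    ring
  have e2 : ∑ i, (cs y i - m₁ * μ) ^ 2 = ∑ i, cs y i ^ 2 - 2 * m₁ * μ * tot y +
      m₂ * (m₁ * μ) ^ 2 := by
    rw [← sum_cs]
    simp only [sub_sq, Finset.sum_add_distrib, Finset.sum_sub_distrib, Finset.sum_const,
      Finset.card_univ, Fintype.card_fin, nsmul_eq_mul]
    rw [← Finset.sum_mul, ← Finset.mul_sum]
    ring
  fin_cases k
  · simp only [SS, Fin.zero_eta, Matrix.cons_val_zero, hr, hc, ht, e0, e1, e2]
    field_simp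
    ring
  · simp only [SS, Fin.mk_one, Matrix.cons_val_one, Matrix.cons_val_zero, hr, hc, ht, e0, e1, e2]
    field_simp
    ring
  · simp only [SS, Fin.reduceFinMk, Matrix.cons_val, hr, hc, ht, e0, e1, e2]
    field_simp
    ring

lemma SS_abs (hm₁ : 0 < m₁) (hm₂ : 0 < m₂) (x : Cell m₁ m₂ → ℝ) (k : Fin 3) :
    |SS x k| ≤ 2 * ∑ p, x p ^ 2 := by
  have n1 : 0 < (m₁ : ℝ) := by positivity
  have n2 : 0 < (m₂ : ℝ) := by positivity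
  have hA : (∑ i, rs x i ^ 2) / m₂ ≤ ∑ p, x p ^ 2 := by
    rw [div_le_iff₀ n2, Fintype.sum_prod_type, Finset.sum_mul]
    refine Finset.sum_le_sum fun i _ => ?_
    have h := sq_sum_le_card_mul_sum_sq (s := Finset.univ) (f := fun j => x (i, j))
    simp only [Finset.card_univ, Fintype.card_fin] at h
    unfold rs
    linarith
  have hB : (∑ j, cs x j ^ 2) / m₁ ≤ ∑ p, x p ^ 2 := by
    rw [div_le_iff₀ n1, Fintype.sum_prod_type, Finset.sum_comm, Finset.sum_mul]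
    refine Finset.sum_le_sum fun j _ => ?_
    have h := sq_sum_le_card_mul_sum_sq (s := Finset.univ) (f := fun i => x (i, j))
    simp only [Finset.card_univ, Fintype.card_fin] at h
    unfold cs
    linarith
  have hC : tot x ^ 2 / (m₁ * m₂) ≤ ∑ p, x p ^ 2 := by
    rw [div_le_iff₀ (by positivity)]
    have h := sq_sum_le_card_mul_sum_sq (s := Finset.univ) (f := x)
    simp only [Finset.card_univ, Fintype.card_fin, Fintype.card_prod, Nat.cast_mul] at h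
    unfold tot
    linarith
  have hA0 : 0 ≤ (∑ i, rs x i ^ 2) / m₂ := by positivity
  have hB0 : 0 ≤ (∑ j, cs x j ^ 2) / m₁ := by positivity
  have hC0 : 0 ≤ tot x ^ 2 / (m₁ * m₂) := by positivity
  have h0 : 0 ≤ ∑ p, x p ^ 2 := Finset.sum_nonneg fun _ _ => sq_nonneg _
  rw [abs_le]
  fin_cases k
  · simp only [SS, Fin.zero_eta, Matrix.cons_val_zero]
    constructor <;> linarith
  · simp only [SS, Fin.mk_one, Matrix.cons_val_one, Matrix.cons_val_zero]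
    constructor <;> linarith
  · simp only [SS, Fin.reduceFinMk, Matrix.cons_val]
    constructor <;> linarith

/-- mean square deviation -/
noncomputable def T (μ : ℝ) (ω : Idx m₁ m₂ → ℝ) : ℝ :=
  (∑ p, (obs (m₁ := m₁) (m₂ := m₂) μ ω p - μ) ^ 2) / (m₁ * m₂)

/-- majorant of `T⁴` -/
noncomputable def Gm (ω : Idx m₁ m₂ → ℝ) : ℝ :=
  ∑ p : Cell m₁ m₂, 1 / ((m₁ : ℝ) * m₂) * (3 ^ 7 * (ω (Sum.inl p.1) ^ 8 +
    ω (Sum.inr (Sum.inl p.2)) ^ 8 + ω (Sum.inr (Sum.inr p)) ^ 8))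

lemma eight (a b c : ℝ) : (a + b + c) ^ 8 ≤ 3 ^ 7 * (a ^ 8 + b ^ 8 + c ^ 8) := by
  have h := Real.pow_arith_mean_le_arith_mean_pow_of_even (s := Finset.univ)
    (w := fun _ : Fin 3 => 1 / 3) (z := ![a, b, c]) (fun _ _ => by norm_num)
    (by simp) (n := 8) (by decide)
  simp only [Fin.sum_univ_three, Matrix.cons_val_zero, Matrix.cons_val_one, Matrix.cons_val] at h
  have e : (a + b + c) ^ 8 = 3 ^ 8 * (1 / 3 * a + 1 / 3 * b + 1 / 3 * c) ^ 8 := by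
    ring
  rw [e]
  nlinarith [h]

lemma T_four (hm₁ : 0 < m₁) (hm₂ : 0 < m₂) (μ : ℝ) (ω : Idx m₁ m₂ → ℝ) :
    T μ ω ^ 4 ≤ Gm ω := by
  have n1 : 0 < (m₁ : ℝ) := by positivity
  have n2 : 0 < (m₂ : ℝ) := by positivity
  have h := Real.pow_arith_mean_le_arith_mean_pow (s := Finset.univ)
    (w := fun _ : Cell m₁ m₂ => 1 / ((m₁ : ℝ) * m₂))
    (z := fun p => (obs (m₁ := m₁) (m₂ := m₂) μ ω p - μ) ^ 2)
    (fun _ _ => by positivity) (by simp; field_simp) (fun _ _ => sq_nonneg _) 4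
  have e : T μ ω = ∑ p, 1 / ((m₁ : ℝ) * m₂) * (obs (m₁ := m₁) (m₂ := m₂) μ ω p - μ) ^ 2 := by
    rw [← Finset.mul_sum]
    unfold T
    ring
  rw [e]
  refine h.trans ?_
  unfold Gm
  refine Finset.sum_le_sum fun p _ => ?_
  refine mul_le_mul_of_nonneg_left ?_ (by positivity)
  have e2 : ((obs (m₁ := m₁) (m₂ := m₂) μ ω p - μ) ^ 2) ^ 4 = (ω (Sum.inl p.1) +
      ω (Sum.inr (Sum.inl p.2)) + ω (Sum.inr (Sum.inr p))) ^ 8 := by
    unfold obs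
    ring
  rw [e2]
  exact eight _ _ _

/-- sum of the eighth moments -/
noncomputable def M8 (F : Fin 3 → Measure ℝ) : ℝ := ∑ k, ∫ x, x ^ 8 ∂(F k)

lemma Gm_int (hF : Laws F θ κ) (hm₁ : 0 < m₁) (hm₂ : 0 < m₂) :
    Integrable (Gm (m₁ := m₁) (m₂ := m₂)) (joint m₁ m₂ F) ∧
    ∫ ω, Gm (m₁ := m₁) (m₂ := m₂) ω ∂(joint m₁ m₂ F) = 3 ^ 7 * M8 F := by
  have := joint_prob (m₁ := m₁) (m₂ := m₂) hF
  have n1 : 0 < (m₁ : ℝ) := by positivity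
  have n2 : 0 < (m₂ : ℝ) := by positivity
  have hi : ∀ k : Idx m₁ m₂, Integrable (fun ω : Idx m₁ m₂ → ℝ => ω k ^ 8) (joint m₁ m₂ F) :=
    fun k => int_pow (memLp_coord hF k) le_rfl
  have hi2 : ∀ p : Cell m₁ m₂, Integrable (fun ω : Idx m₁ m₂ → ℝ => ω (Sum.inl p.1) ^ 8 +
    ω (Sum.inr (Sum.inl p.2)) ^ 8) (joint m₁ m₂ F) := fun p => (hi _).add (hi _)
  have hi3 : ∀ p : Cell m₁ m₂, Integrable (fun ω : Idx m₁ m₂ → ℝ => ω (Sum.inl p.1) ^ 8 +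
    ω (Sum.inr (Sum.inl p.2)) ^ 8 + ω (Sum.inr (Sum.inr p)) ^ 8) (joint m₁ m₂ F) :=
    fun p => (hi2 p).add (hi _)
  unfold Gm
  refine ⟨integrable_finsetSum _ fun p _ => ((hi3 p).const_mul _).const_mul _, ?_⟩
  rw [integral_finsetSum _ fun p _ => ((hi3 p).const_mul _).const_mul _]
  have hv : ∀ p : Cell m₁ m₂, ∫ ω, 1 / ((m₁ : ℝ) * m₂) * (3 ^ 7 * (ω (Sum.inl p.1) ^ 8 +
    ω (Sum.inr (Sum.inl p.2)) ^ 8 + ω (Sum.inr (Sum.inr p)) ^ 8)) ∂(joint m₁ m₂ F) =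
    1 / ((m₁ : ℝ) * m₂) * (3 ^ 7 * M8 F) := by
    intro p
    rw [integral_const_mul, integral_const_mul, integral_add (hi2 p) (hi _),
      integral_add (hi _) (hi _), integral_coord hF _ (fun x => x ^ 8) (by fun_prop),
      integral_coord hF _ (fun x => x ^ 8) (by fun_prop),
      integral_coord hF _ (fun x => x ^ 8) (by fun_prop)]
    unfold M8
    rw [Fin.sum_univ_three]
    simp only [law, Sum.elim_inl, Sum.elim_inr]
    ring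
  simp only [hv, Finset.sum_const, Finset.card_univ, Fintype.card_prod, Fintype.card_fin,
    nsmul_eq_mul]
  push_cast
  field_simp

lemma Wbound {n0 n1 l0 l1 N S0 S1 t c : ℝ} (hn0 : 0 < n0) (hn1 : 0 < n1) (hl0 : 0 < l0)
    (hl1 : 0 < l1) (hS0 : |S0| ≤ 2 * (N * t)) (hS1 : |S1| ≤ 2 * (N * t)) (ht : 0 ≤ t)
    (h0 : N ≤ 4 * n0) (h1 : l0 * N ≤ c * (n1 * l1)) :
    |S0 / n0 - l0 * S1 / (n1 * l1)| ≤ (8 + 2 * c) * t := by
  have e1 : |S0 / n0| ≤ 8 * t := by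
    rw [abs_div, abs_of_pos hn0, div_le_iff₀ hn0]
    nlinarith
  have e2 : |l0 * S1 / (n1 * l1)| ≤ 2 * c * t := by
    rw [abs_div, abs_mul, abs_of_pos hl0, abs_of_pos (mul_pos hn1 hl1),
      div_le_iff₀ (mul_pos hn1 hl1)]
    nlinarith
  calc |S0 / n0 - l0 * S1 / (n1 * l1)| ≤ |S0 / n0| + |l0 * S1 / (n1 * l1)| := abs_sub _ _
    _ ≤ (8 + 2 * c) * t := by linarith

lemma alg2 {X W l b G t c : ℝ} (hl : 0 < l) (hb : 0 < b) (hbl : b ≤ l) (hW : |W| ≤ c * t)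
    (hG : t ^ 4 ≤ G) (hc : 0 ≤ c) : 2 * (X / l * W) ^ 2 ≤ (X ^ 4 + c ^ 4 * G) / b ^ 2 := by
  have h1 : W ^ 4 ≤ c ^ 4 * G := by
    calc W ^ 4 = |W| ^ 4 := (Even.pow_abs (by decide) W).symm
      _ ≤ (c * t) ^ 4 := pow_le_pow_left₀ (abs_nonneg _) hW 4
      _ = c ^ 4 * t ^ 4 := by ring
      _ ≤ c ^ 4 * G := mul_le_mul_of_nonneg_left hG (by positivity)
  have h2 : 2 * (X / l * W) ^ 2 ≤ (X ^ 4 + W ^ 4) / l ^ 2 := by
    rw [le_div_iff₀ (by positivity)]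
    have : 2 * (X / l * W) ^ 2 * l ^ 2 = 2 * (X * W) ^ 2 := by
      field_simp
    rw [this]
    nlinarith [sq_nonneg (X ^ 2 - W ^ 2)]
  refine h2.trans ?_
  have h3 : 0 ≤ X ^ 4 + c ^ 4 * G := by
    have : 0 ≤ t ^ 4 := by positivity
    have : 0 ≤ G := by linarith
    positivity
  calc (X ^ 4 + W ^ 4) / l ^ 2 ≤ (X ^ 4 + c ^ 4 * G) / l ^ 2 := by
        apply div_le_div_of_nonneg_right (by linarith) (by positivity)
    _ ≤ (X ^ 4 + c ^ 4 * G) / b ^ 2 := by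
        apply div_le_div_of_nonneg_left h3 (by positivity)
        exact pow_le_pow_left₀ hb.le hbl 2

/-- the explicit bound -/
theorem g3_bound (hF : Laws F θ κ) (hm₁ : 2 ≤ m₁) (hm₂ : 2 ≤ m₂) (μ a₀ : ℝ)
    (a₁ : Fin m₁ → ℝ) (a₂ : Fin m₂ → ℝ) :
    g3 m₁ m₂ F μ θ a₀ a₁ a₂ ≤
      (3 * Qc θ κ ^ 2 * (2 * ∑ i, a₁ i ^ 2) ^ 2 +
        (8 + 2 * (2 * (θ 0 / θ 1))) ^ 4 * (3 ^ 7 * M8 F)) / (m₂ * θ 1) ^ 2 +
      (3 * Qc θ κ ^ 2 * (2 * ∑ i, a₂ i ^ 2) ^ 2 +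
        (8 + 2 * (2 * (θ 0 / θ 2))) ^ 4 * (3 ^ 7 * M8 F)) / (m₁ * θ 2) ^ 2 := by
  have := joint_prob (m₁ := m₁) (m₂ := m₂) hF
  have hpos : Pos θ := hF.pos
  have t0 := hpos 0
  have t1 := hpos 1
  have t2 := hpos 2
  have g1 : 0 < m₁ := by omega
  have g2 : 0 < m₂ := by omega
  have n1 : 0 < (m₁ : ℝ) := by positivity
  have n2 : 0 < (m₂ : ℝ) := by positivity
  have k1 : (2 : ℝ) ≤ m₁ := by exact_mod_cast hm₁
  have k2 : (2 : ℝ) ≤ m₂ := by exact_mod_cast hm₂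
  obtain ⟨iG, xG⟩ := Gm_int (m₁ := m₁) (m₂ := m₂) hF g1 g2
  have iX1 := int_pow (memLp_lin hF (c₁ (m₂ := m₂) a₁)) (i := 4) (by norm_num)
  have iX2 := int_pow (memLp_lin hF (c₂ (m₁ := m₁) a₂)) (i := 4) (by norm_num)
  have l0 := lam_pos (m₁ := m₁) (m₂ := m₂) hpos 0
  have l1 := lam_pos (m₁ := m₁) (m₂ := m₂) hpos 1
  have l2 := lam_pos (m₁ := m₁) (m₂ := m₂) hpos 2
  set d1 : ℝ := 8 + 2 * (2 * (θ 0 / θ 1)) with hd1
  set d2 : ℝ := 8 + 2 * (2 * (θ 0 / θ 2)) with hd2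
  have hd1' : 0 ≤ d1 := by positivity
  have hd2' : 0 ≤ d2 := by positivity
  have i1 : Integrable (fun ω => (lin (c₁ (m₂ := m₂) a₁) ω ^ 4 + d1 ^ 4 * Gm ω) /
      (m₂ * θ 1) ^ 2) (joint m₁ m₂ F) := (iX1.add (iG.const_mul _)).div_const _
  have i2 : Integrable (fun ω => (lin (c₂ (m₁ := m₁) a₂) ω ^ 4 + d2 ^ 4 * Gm ω) /
      (m₁ * θ 2) ^ 2) (joint m₁ m₂ F) := (iX2.add (iG.const_mul _)).div_const _
  have hpt : ∀ ω, (hvec m₁ m₂ a₀ a₁ a₂ θ (obs μ ω) ⬝ᵥ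
      (Amat m₁ m₂ F μ θ)⁻¹ *ᵥ score m₁ m₂ θ (obs μ ω)) ^ 2 ≤
      (lin (c₁ (m₂ := m₂) a₁) ω ^ 4 + d1 ^ 4 * Gm ω) / (m₂ * θ 1) ^ 2 +
      (lin (c₂ (m₁ := m₁) a₂) ω ^ 4 + d2 ^ 4 * Gm ω) / (m₁ * θ 2) ^ 2 := by
    intro ω
    rw [main_eq hF μ hm₁ hm₂, X₁_obs g1 g2, X₂_obs g1 g2]
    have hT0 : 0 ≤ T (m₁ := m₁) (m₂ := m₂) μ ω := by
      unfold T
      positivity
    have hS : ∀ k, |SS (obs (m₁ := m₁) (m₂ := m₂) μ ω) k| ≤ 2 * ((m₁ * m₂) * T μ ω) := by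
      intro k
      rw [SS_shift g1 g2 μ]
      refine (SS_abs g1 g2 _ k).trans (le_of_eq ?_)
      unfold T
      field_simp
    have q0 : 0 < nn m₁ m₂ 0 := by
      simp only [nn, Matrix.cons_val_zero]
      exact mul_pos (by linarith) (by linarith)
    have q1 : 0 < nn m₁ m₂ 1 := by
      simp only [nn, Matrix.cons_val_one, Matrix.cons_val_zero]
      linarith
    have q2 : 0 < nn m₁ m₂ 2 := by
      simp only [nn, Matrix.cons_val]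
      linarith
    have r0 : (m₁ : ℝ) * m₂ ≤ 4 * nn m₁ m₂ 0 := by
      simp only [nn, Matrix.cons_val_zero]
      nlinarith
    have r1 : lam m₁ m₂ θ 0 * (m₁ * m₂) ≤ (2 * (θ 0 / θ 1)) * (nn m₁ m₂ 1 * lam m₁ m₂ θ 1) := by
      simp only [nn, lam, Matrix.cons_val_one, Matrix.cons_val_zero]
      have h1 : θ 0 * (m₁ * m₂) = (2 * (θ 0 / θ 1)) * ((m₁ / 2) * (m₂ * θ 1)) := by
        field_simp
      rw [h1]
      refine mul_le_mul_of_nonneg_left ?_ (by positivity)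
      exact mul_le_mul (by linarith) (by linarith) (by positivity) (by linarith)
    have r2 : lam m₁ m₂ θ 0 * (m₁ * m₂) ≤ (2 * (θ 0 / θ 2)) * (nn m₁ m₂ 2 * lam m₁ m₂ θ 2) := by
      simp only [nn, lam, Matrix.cons_val, Matrix.cons_val_zero]
      have h1 : θ 0 * (m₁ * m₂) = (2 * (θ 0 / θ 2)) * ((m₂ / 2) * (m₁ * θ 2)) := by
        field_simp
      rw [h1]
      refine mul_le_mul_of_nonneg_left ?_ (by positivity)
      exact mul_le_mul (by linarith) (by linarith) (by positivity) (by linarith)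
    have w1 := Wbound q0 q1 l0 l1 (hS 0) (hS 1) hT0 r0 r1
    have w2 := Wbound q0 q2 l0 l2 (hS 0) (hS 2) hT0 r0 r2
    have b1 : (m₂ : ℝ) * θ 1 ≤ lam m₁ m₂ θ 1 := by
      simp only [lam, Matrix.cons_val_one, Matrix.cons_val_zero]
      linarith
    have b2 : (m₁ : ℝ) * θ 2 ≤ lam m₁ m₂ θ 2 := by
      simp only [lam, Matrix.cons_val]
      linarith
    have hT4 := T_four g1 g2 μ ω
    have z1 := alg2 (X := lin (c₁ (m₂ := m₂) a₁) ω) l1 (by positivity) b1 w1 hT4 hd1'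
    have z2 := alg2 (X := lin (c₂ (m₁ := m₁) a₂) ω) l2 (by positivity) b2 w2 hT4 hd2'
    refine le_trans ?_ (add_le_add z1 z2)
    nlinarith [sq_nonneg (lin (c₁ (m₂ := m₂) a₁) ω / lam m₁ m₂ θ 1 *
      (SS (obs μ ω) 0 / nn m₁ m₂ 0 - lam m₁ m₂ θ 0 * SS (obs μ ω) 1 /
        (nn m₁ m₂ 1 * lam m₁ m₂ θ 1)) - lin (c₂ (m₁ := m₁) a₂) ω / lam m₁ m₂ θ 2 *
      (SS (obs μ ω) 0 / nn m₁ m₂ 0 - lam m₁ m₂ θ 0 * SS (obs μ ω) 2 /
        (nn m₁ m₂ 2 * lam m₁ m₂ θ 2)))]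
  have hmono := integral_mono_of_nonneg (μ := joint m₁ m₂ F)
    (Filter.Eventually.of_forall fun ω => sq_nonneg _) (i1.add i2)
    (Filter.Eventually.of_forall hpt)
  unfold g3
  refine hmono.trans ?_
  have hx1 := four_lin hF (c₁ (m₂ := m₂) a₁)
  have hx2 := four_lin hF (c₂ (m₁ := m₁) a₂)
  have hs1 := c₁_sq g1 g2 a₁
  have hs2 := c₂_sq g1 g2 a₂
  have hs1' : (∑ k, c₁ (m₂ := m₂) a₁ k ^ 2) ^ 2 ≤ (2 * ∑ i, a₁ i ^ 2) ^ 2 :=
    pow_le_pow_left₀ (Finset.sum_nonneg fun _ _ => sq_nonneg _) hs1 2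
  have hs2' : (∑ k, c₂ (m₁ := m₁) a₂ k ^ 2) ^ 2 ≤ (2 * ∑ i, a₂ i ^ 2) ^ 2 :=
    pow_le_pow_left₀ (Finset.sum_nonneg fun _ _ => sq_nonneg _) hs2 2
  have hq : 0 ≤ 3 * Qc θ κ ^ 2 := by positivity
  have e1 : ∫ ω, (lin (c₁ (m₂ := m₂) a₁) ω ^ 4 + d1 ^ 4 * Gm ω) /
      (m₂ * θ 1) ^ 2 ∂(joint m₁ m₂ F) ≤ (3 * Qc θ κ ^ 2 * (2 * ∑ i, a₁ i ^ 2) ^ 2 +
        d1 ^ 4 * (3 ^ 7 * M8 F)) / (m₂ * θ 1) ^ 2 := by
    rw [integral_div, integral_add iX1 (iG.const_mul _), integral_const_mul, xG]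
    apply div_le_div_of_nonneg_right _ (by positivity)
    have := mul_le_mul_of_nonneg_left hs1' hq
    linarith
  have e2 : ∫ ω, (lin (c₂ (m₁ := m₁) a₂) ω ^ 4 + d2 ^ 4 * Gm ω) /
      (m₁ * θ 2) ^ 2 ∂(joint m₁ m₂ F) ≤ (3 * Qc θ κ ^ 2 * (2 * ∑ i, a₂ i ^ 2) ^ 2 +
        d2 ^ 4 * (3 ^ 7 * M8 F)) / (m₁ * θ 2) ^ 2 := by
    rw [integral_div, integral_add iX2 (iG.const_mul _), integral_const_mul, xG]
    apply div_le_div_of_nonneg_right _ (by positivity)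
    have := mul_le_mul_of_nonneg_left hs2' hq
    linarith
  calc _ = ∫ ω, (lin (c₁ (m₂ := m₂) a₁) ω ^ 4 + d1 ^ 4 * Gm ω) /
      (m₂ * θ 1) ^ 2 ∂(joint m₁ m₂ F) + ∫ ω, (lin (c₂ (m₁ := m₁) a₂) ω ^ 4 + d2 ^ 4 * Gm ω) /
      (m₁ * θ 2) ^ 2 ∂(joint m₁ m₂ F) := integral_add i1 i2
    _ ≤ _ := add_le_add e1 e2

end Pool.Agent.V1184.CR
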