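import Pool.Agent.V1184.CR.Defs

set_option autoImplicit false

open MeasureTheory ProbabilityTheory Filter Topology Matrix

namespace Pool.Agent.V1184.CR

variable {m₁ m₂ : ℕ}

/-- same row -/
def Rm (m₁ m₂ : ℕ) : Matrix (Cell m₁ m₂) (Cell m₁ m₂) ℝ :=
  Matrix.of fun p q => if p.1 = q.1 then 1 else 0
/-- same column -/
def Cm (m₁ m₂ : ℕ) : Matrix (Cell m₁ m₂) (Cell m₁ m₂) ℝ :=
  Matrix.of fun p q => if p.2 = q.2 then 1 else 0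
/-- all ones -/
def Jm (m₁ m₂ : ℕ) : Matrix (Cell m₁ m₂) (Cell m₁ m₂) ℝ :=
  Matrix.of fun _ _ => 1

lemma V_eq (θ : Fin 3 → ℝ) : V m₁ m₂ θ =
    θ 0 • (1 : Matrix (Cell m₁ m₂) (Cell m₁ m₂) ℝ) + θ 1 • Rm m₁ m₂ + θ 2 • Cm m₁ m₂ := by
  unfold V G
  rw [add_assoc]
  congr 1
  ext p q
  rw [Matrix.mul_apply, Fintype.sum_sum_type]
  simp only [Matrix.mul_diagonal, Z, Matrix.of_apply, Matrix.transpose_apply, Sum.elim_inl,
    Sum.elim_inr, Matrix.add_apply, Matrix.smul_apply, Rm, Cm, smul_eq_mul]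
  congr 1
  · simp [ite_and, eq_comm]
  · simp [ite_and, eq_comm]

lemma RR : Rm m₁ m₂ * Rm m₁ m₂ = (m₂ : ℝ) • Rm m₁ m₂ := by
  ext p q
  rw [Matrix.mul_apply, Fintype.sum_prod_type]
  by_cases hpq : p.1 = q.1 <;> simp [Rm, Matrix.smul_apply, hpq]

lemma CC : Cm m₁ m₂ * Cm m₁ m₂ = (m₁ : ℝ) • Cm m₁ m₂ := by
  ext p q
  rw [Matrix.mul_apply, Fintype.sum_prod_type]
  by_cases hpq : p.2 = q.2 <;> simp [Cm, Matrix.smul_apply, hpq]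

lemma RC : Rm m₁ m₂ * Cm m₁ m₂ = Jm m₁ m₂ := by
  ext p q
  rw [Matrix.mul_apply, Fintype.sum_prod_type]
  simp [Rm, Cm, Jm]

lemma CRm : Cm m₁ m₂ * Rm m₁ m₂ = Jm m₁ m₂ := by
  ext p q
  rw [Matrix.mul_apply, Fintype.sum_prod_type]
  simp [Rm, Cm, Jm]

lemma RJ : Rm m₁ m₂ * Jm m₁ m₂ = (m₂ : ℝ) • Jm m₁ m₂ := by
  ext p q
  rw [Matrix.mul_apply, Fintype.sum_prod_type]
  rw [Finset.sum_comm]
  simp [Rm, Jm]

lemma CJ : Cm m₁ m₂ * Jm m₁ m₂ = (m₁ : ℝ) • Jm m₁ m₂ := by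
  ext p q
  rw [Matrix.mul_apply, Fintype.sum_prod_type]
  simp [Cm, Jm]

lemma JJ : Jm m₁ m₂ * Jm m₁ m₂ = (m₁ * m₂ : ℝ) • Jm m₁ m₂ := by
  ext p q
  rw [Matrix.mul_apply, Fintype.sum_prod_type]
  simp [Jm]

/-- eigenvalues -/
def lam (m₁ m₂ : ℕ) (θ : Fin 3 → ℝ) : Fin 3 → ℝ :=
  ![θ 0, θ 0 + m₂ * θ 1, θ 0 + m₁ * θ 2]

/-- the last eigenvalue -/
def lam3 (m₁ m₂ : ℕ) (θ : Fin 3 → ℝ) : ℝ := θ 0 + m₂ * θ 1 + m₁ * θ 2

/-- inverse of `V` -/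
noncomputable def W (m₁ m₂ : ℕ) (θ : Fin 3 → ℝ) : Matrix (Cell m₁ m₂) (Cell m₁ m₂) ℝ :=
  (1 / lam m₁ m₂ θ 0) • (1 : Matrix (Cell m₁ m₂) (Cell m₁ m₂) ℝ) +
  ((1 / lam m₁ m₂ θ 1 - 1 / lam m₁ m₂ θ 0) / m₂) • Rm m₁ m₂ +
  ((1 / lam m₁ m₂ θ 2 - 1 / lam m₁ m₂ θ 0) / m₁) • Cm m₁ m₂ +
  ((1 / lam3 m₁ m₂ θ - 1 / lam m₁ m₂ θ 1 - 1 / lam m₁ m₂ θ 2 + 1 / lam m₁ m₂ θ 0) / (m₁ * m₂)) •
    Jm m₁ m₂

/-- open set of parameters -/
def Pos (θ : Fin 3 → ℝ) : Prop := ∀ k, 0 < θ k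

lemma lam_pos {θ : Fin 3 → ℝ} (h : Pos θ) (k : Fin 3) : 0 < lam m₁ m₂ θ k := by
  have h0 := h 0
  have h1 := h 1
  have h2 := h 2
  fin_cases k <;> simp [lam] <;> positivity

lemma lam3_pos {θ : Fin 3 → ℝ} (h : Pos θ) : 0 < lam3 m₁ m₂ θ := by
  have h0 := h 0
  have h1 := h 1
  have h2 := h 2
  unfold lam3
  positivity

lemma V_mul_W {θ : Fin 3 → ℝ} (h : Pos θ) (hm₁ : 0 < m₁) (hm₂ : 0 < m₂) :
    V m₁ m₂ θ * W m₁ m₂ θ = 1 := by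
  have h0 := h 0
  have h1 := h 1
  have h2 := h 2
  have n1 : 0 < (m₁ : ℝ) := by positivity
  have n2 : 0 < (m₂ : ℝ) := by positivity
  rw [V_eq]
  unfold W
  simp only [lam, Matrix.cons_val_zero, Matrix.cons_val_one, Matrix.cons_val, lam3]
  simp only [add_mul, mul_add, smul_mul_assoc, mul_smul_comm, RR, CC, RC, CRm, RJ, CJ, one_mul,
    mul_one, smul_smul, smul_add]
  match_scalars
  · field_simp
  · field_simp
    ring
  · field_simp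
    ring
  · field_simp
    ring

lemma V_inv {θ : Fin 3 → ℝ} (h : Pos θ) (hm₁ : 0 < m₁) (hm₂ : 0 < m₂) :
    (V m₁ m₂ θ)⁻¹ = W m₁ m₂ θ :=
  Matrix.inv_eq_right_inv (V_mul_W h hm₁ hm₂)

lemma det_J (n : Type) [Fintype n] [DecidableEq n] (c : ℝ) :
    (1 + c • (Matrix.of fun (_ _ : n) => (1 : ℝ))).det = 1 + c * Fintype.card n := by
  have h := Matrix.det_one_add_replicateCol_mul_replicateRow (ι := Unit) (fun _ : n => c)
    (fun _ : n => (1 : ℝ))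
  have h2 : Matrix.replicateCol Unit (fun _ : n => c) * Matrix.replicateRow Unit (fun _ : n => (1 : ℝ))
      = c • (Matrix.of fun (_ _ : n) => (1 : ℝ)) := by
    ext i j
    simp [Matrix.mul_apply]
  rw [h2] at h
  rw [h]
  simp [dotProduct, mul_comm]

lemma det_R (a : ℝ) : (1 + a • Rm m₁ m₂).det = (1 + a * m₂) ^ m₁ := by
  have h : 1 + a • Rm m₁ m₂ = Matrix.kroneckerMap (· * ·) (1 : Matrix (Fin m₁) (Fin m₁) ℝ)
      (1 + a • (Matrix.of fun (_ _ : Fin m₂) => (1 : ℝ))) := by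
    ext ⟨i, j⟩ ⟨i', j'⟩
    simp only [Matrix.add_apply, Matrix.one_apply, Prod.mk.injEq, Rm, Matrix.smul_apply,
      Matrix.of_apply, Matrix.kroneckerMap_apply, smul_eq_mul]
    by_cases hi : i = i' <;> simp [hi]
  rw [h, Matrix.det_kronecker, det_J]
  simp

lemma det_C (b : ℝ) : (1 + b • Cm m₁ m₂).det = (1 + b * m₁) ^ m₂ := by
  have h : 1 + b • Cm m₁ m₂ = Matrix.kroneckerMap (· * ·)
      (1 + b • (Matrix.of fun (_ _ : Fin m₁) => (1 : ℝ))) (1 : Matrix (Fin m₂) (Fin m₂) ℝ) := by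
    ext ⟨i, j⟩ ⟨i', j'⟩
    simp only [Matrix.add_apply, Matrix.one_apply, Prod.mk.injEq, Cm, Matrix.smul_apply,
      Matrix.of_apply, Matrix.kroneckerMap_apply, smul_eq_mul]
    by_cases hi : j = j' <;> simp [hi]
  rw [h, Matrix.det_kronecker, det_J]
  simp

lemma det_Jm (c : ℝ) : (1 + c • Jm m₁ m₂).det = 1 + c * (m₁ * m₂) := by
  have h := det_J (Cell m₁ m₂) c
  unfold Jm
  rw [h]
  simp

lemma V_factor {θ : Fin 3 → ℝ} (h : Pos θ) :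
    V m₁ m₂ θ = θ 0 • ((1 + (θ 1 / θ 0) • Rm m₁ m₂) * (1 + (θ 2 / θ 0) • Cm m₁ m₂) *
      (1 + (-(θ 1 * θ 2) / ((θ 0 + m₂ * θ 1) * (θ 0 + m₁ * θ 2))) • Jm m₁ m₂)) := by
  have h0 := h 0
  have h1 := h 1
  have h2 := h 2
  have l1 : θ 0 + θ 1 * (m₂ : ℝ) ≠ 0 := by positivity
  have l2 : θ 0 + θ 2 * (m₁ : ℝ) ≠ 0 := by positivity
  rw [V_eq]
  simp only [add_mul, mul_add, smul_mul_assoc, mul_smul_comm, RC, RJ, CJ, JJ, one_mul,
    mul_one, smul_smul, smul_add]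
  match_scalars
  · field_simp
  · field_simp
  · field_simp
  · field_simp
    ring

lemma log_det {θ : Fin 3 → ℝ} (h : Pos θ) (hm₁ : 0 < m₁) (hm₂ : 0 < m₂) :
    Real.log (V m₁ m₂ θ).det = (m₁ - 1 : ℝ) * (m₂ - 1) * Real.log (lam m₁ m₂ θ 0) +
      (m₁ - 1 : ℝ) * Real.log (lam m₁ m₂ θ 1) + (m₂ - 1 : ℝ) * Real.log (lam m₁ m₂ θ 2) +
      Real.log (lam3 m₁ m₂ θ) := by
  have h0 := h 0
  have l0 := (lam_pos (m₁ := m₁) (m₂ := m₂) h 0)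
  have l1 := (lam_pos (m₁ := m₁) (m₂ := m₂) h 1)
  have l2 := (lam_pos (m₁ := m₁) (m₂ := m₂) h 2)
  have l3 := (lam3_pos (m₁ := m₁) (m₂ := m₂) h)
  rw [V_factor h, Matrix.det_smul, Matrix.det_mul, Matrix.det_mul, det_R, det_C, det_Jm]
  have e1 : 1 + θ 1 / θ 0 * m₂ = lam m₁ m₂ θ 1 / lam m₁ m₂ θ 0 := by
    simp only [lam, Matrix.cons_val_zero, Matrix.cons_val_one, Matrix.cons_val]
    field_simp
  have e2 : 1 + θ 2 / θ 0 * m₁ = lam m₁ m₂ θ 2 / lam m₁ m₂ θ 0 := by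
    simp only [lam, Matrix.cons_val_zero, Matrix.cons_val_one, Matrix.cons_val]
    field_simp
  have e3 : 1 + -(θ 1 * θ 2) / ((θ 0 + m₂ * θ 1) * (θ 0 + m₁ * θ 2)) * (m₁ * m₂) =
      lam m₁ m₂ θ 0 * lam3 m₁ m₂ θ / (lam m₁ m₂ θ 1 * lam m₁ m₂ θ 2) := by
    have h1 := h 1
    have h2 := h 2
    simp only [lam, Matrix.cons_val_zero, Matrix.cons_val_one, Matrix.cons_val, lam3]
    field_simp
    ring
  rw [e1, e2, e3]
  have e0 : θ 0 = lam m₁ m₂ θ 0 := by simp [lam]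
  rw [e0]
  rw [Real.log_mul (by positivity) (by positivity), Real.log_mul (by positivity) (by positivity),
    Real.log_mul (by positivity) (by positivity), Real.log_pow, Real.log_pow, Real.log_pow,
    Real.log_div (by positivity) (by positivity), Real.log_div (by positivity) (by positivity),
    Real.log_div (by positivity) (by positivity), Real.log_mul (by positivity) (by positivity),
    Real.log_mul (by positivity) (by positivity)]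
  simp only [Fintype.card_prod, Fintype.card_fin]
  push_cast
  ring

end Pool.Agent.V1184.CR
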