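import Pool.Agent.V1184.CR.Closed

set_option autoImplicit false

open MeasureTheory ProbabilityTheory Filter Topology Matrix
open scoped ENNReal

namespace Pool.Agent.V1184.CR

variable {m₁ m₂ : ℕ} {F : Fin 3 → Measure ℝ} {θ κ : Fin 3 → ℝ}

/-- variances of the coordinates -/
def vr {m₁ m₂ : ℕ} (θ : Fin 3 → ℝ) : Idx m₁ m₂ → ℝ :=
  Sum.elim (fun _ => θ 1) (Sum.elim (fun _ => θ 2) (fun _ => θ 0))

lemma law_prob (hF : Laws F θ κ) (k : Idx m₁ m₂) : IsProbabilityMeasure (law F k) := by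
  rcases k with i | j | p
  · exact hF.prob 1
  · exact hF.prob 2
  · exact hF.prob 0

lemma joint_prob (hF : Laws F θ κ) : IsProbabilityMeasure (joint m₁ m₂ F) := by
  have := fun k : Idx m₁ m₂ => law_prob hF k
  unfold joint
  infer_instance

lemma integral_coord (hF : Laws F θ κ) (k : Idx m₁ m₂) (g : ℝ → ℝ) (hg : Measurable g) :
    ∫ ω, g (ω k) ∂(joint m₁ m₂ F) = ∫ x, g x ∂(law F k) := by
  have := fun k : Idx m₁ m₂ => law_prob hF k
  have h := measurePreserving_eval (law (m₁ := m₁) (m₂ := m₂) F) k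
  unfold joint
  rw [← h.map_eq, integral_map h.measurable.aemeasurable hg.aestronglyMeasurable]

lemma memLp_law (hF : Laws F θ κ) (k : Fin 3) : MemLp (fun x : ℝ => x) 8 (F k) := by
  have := hF.prob k
  have h := (integrable_norm_rpow_iff (f := fun x : ℝ => x) (p := 8) (μ := F k)
    aestronglyMeasurable_id (by norm_num) (by norm_num)).1 (by
      have h1 := hF.mom8 k
      refine h1.congr (Filter.Eventually.of_forall fun x => ?_)
      simp only [ENNReal.toReal_ofNat, Real.norm_eq_abs]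
      have : (8 : ℝ) = ((8 : ℕ) : ℝ) := by norm_num
      rw [this, Real.rpow_natCast]
      exact (Even.pow_abs (by decide) x).symm)
  exact h

lemma memLp_coord (hF : Laws F θ κ) (k : Idx m₁ m₂) :
    MemLp (fun ω : Idx m₁ m₂ → ℝ => ω k) 8 (joint m₁ m₂ F) := by
  have := fun k : Idx m₁ m₂ => law_prob hF k
  have h := measurePreserving_eval (law (m₁ := m₁) (m₂ := m₂) F) k
  have h2 : MemLp (fun x : ℝ => x) 8 (law (m₁ := m₁) (m₂ := m₂) F k) := by
    rcases k with i | j | p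
    · exact memLp_law hF 1
    · exact memLp_law hF 2
    · exact memLp_law hF 0
  exact h2.comp_measurePreserving h

lemma int_pow {Ω : Type*} [MeasurableSpace Ω] {P : Measure Ω} [IsProbabilityMeasure P]
    {f : Ω → ℝ} (hf : MemLp f 8 P) {i : ℕ} (hi : i ≤ 8) : Integrable (fun ω => f ω ^ i) P := by
  have h1 : MemLp f (i : ℝ≥0∞) P := hf.mono_exponent (by exact_mod_cast hi)
  have h2 := h1.integrable_norm_pow'
  refine (integrable_norm_iff (hf.aestronglyMeasurable.pow i)).1 ?_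
  refine h2.congr (Filter.Eventually.of_forall fun x => ?_)
  simp

/-- partial linear form -/
def pl (c : Idx m₁ m₂ → ℝ) (s : Finset (Idx m₁ m₂)) (ω : Idx m₁ m₂ → ℝ) : ℝ :=
  ∑ k ∈ s, c k * ω k

lemma memLp_pl (hF : Laws F θ κ) (c : Idx m₁ m₂ → ℝ) (s : Finset (Idx m₁ m₂)) :
    MemLp (pl c s) 8 (joint m₁ m₂ F) := by
  have h : pl c s = ∑ k ∈ s, fun ω : Idx m₁ m₂ → ℝ => c k * ω k := by
    funext ω
    simp [pl, Finset.sum_apply]
  rw [h]
  exact memLp_finsetSum' _ fun k _ => (memLp_coord hF k).const_mul (c k)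

lemma mean_coord (hF : Laws F θ κ) (k : Idx m₁ m₂) :
    ∫ ω, ω k ∂(joint m₁ m₂ F) = 0 := by
  rw [integral_coord hF k (fun x => x) measurable_id]
  rcases k with i | j | p
  · exact hF.mean 1
  · exact hF.mean 2
  · exact hF.mean 0

lemma var_coord (hF : Laws F θ κ) (k : Idx m₁ m₂) :
    ∫ ω, ω k ^ 2 ∂(joint m₁ m₂ F) = vr θ k := by
  rw [integral_coord hF k (fun x => x ^ 2) (by fun_prop)]
  rcases k with i | j | p
  · exact hF.var 1
  · exact hF.var 2
  · exact hF.var 0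

/-- the constant `Q` -/
def Qc (θ κ : Fin 3 → ℝ) : ℝ := 1 + ∑ k, θ k + ∑ k, κ k

lemma kappa_nonneg (hF : Laws F θ κ) (k : Fin 3) : 0 ≤ κ k := by
  rw [← hF.fourth k]
  exact integral_nonneg fun x => by positivity

lemma one_le_Q (hF : Laws F θ κ) : 1 ≤ Qc θ κ := by
  have h1 : 0 ≤ ∑ k, θ k := Finset.sum_nonneg fun k _ => (hF.pos k).le
  have h2 : 0 ≤ ∑ k, κ k := Finset.sum_nonneg fun k _ => kappa_nonneg hF k
  unfold Qc
  linarith

lemma theta_le_Q (hF : Laws F θ κ) (k : Fin 3) : θ k ≤ Qc θ κ := by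
  have h1 : θ k ≤ ∑ k, θ k :=
    Finset.single_le_sum (f := θ) (fun k _ => (hF.pos k).le) (Finset.mem_univ k)
  have h2 : 0 ≤ ∑ k, κ k := Finset.sum_nonneg fun k _ => kappa_nonneg hF k
  unfold Qc
  linarith

lemma kappa_le_Q (hF : Laws F θ κ) (k : Fin 3) : κ k ≤ Qc θ κ ^ 2 := by
  have h1 : κ k ≤ ∑ k, κ k :=
    Finset.single_le_sum (f := κ) (fun k _ => kappa_nonneg hF k) (Finset.mem_univ k)
  have h2 : 0 ≤ ∑ k, θ k := Finset.sum_nonneg fun k _ => (hF.pos k).le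
  have h3 : κ k ≤ Qc θ κ := by
    unfold Qc
    linarith
  nlinarith [one_le_Q hF]

lemma vr_le (hF : Laws F θ κ) (k : Idx m₁ m₂) : vr θ k ≤ Qc θ κ := by
  rcases k with i | j | p
  · exact theta_le_Q hF 1
  · exact theta_le_Q hF 2
  · exact theta_le_Q hF 0

lemma vr_nonneg (hF : Laws F θ κ) (k : Idx m₁ m₂) : 0 ≤ vr θ k := by
  rcases k with i | j | p
  · exact (hF.pos 1).le
  · exact (hF.pos 2).le
  · exact (hF.pos 0).le

lemma fourth_coord (hF : Laws F θ κ) (k : Idx m₁ m₂) :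
    ∫ ω, ω k ^ 4 ∂(joint m₁ m₂ F) ≤ Qc θ κ ^ 2 := by
  rw [integral_coord hF k (fun x => x ^ 4) (by fun_prop)]
  rcases k with i | j | p
  · exact (hF.fourth 1).le.trans (kappa_le_Q hF 1)
  · exact (hF.fourth 2).le.trans (kappa_le_Q hF 2)
  · exact (hF.fourth 0).le.trans (kappa_le_Q hF 0)

lemma indep (hF : Laws F θ κ) (c : Idx m₁ m₂ → ℝ) {s : Finset (Idx m₁ m₂)} {a : Idx m₁ m₂}
    (ha : a ∉ s) : IndepFun (pl c s) (fun ω : Idx m₁ m₂ → ℝ => c a * ω a) (joint m₁ m₂ F) := by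
  have := fun k : Idx m₁ m₂ => law_prob hF k
  have h := iIndepFun_pi (μ := law (m₁ := m₁) (m₂ := m₂) F) (X := fun k x => c k * x)
    (fun k => (measurable_const_mul (c k)).aemeasurable)
  have h2 := h.indepFun_finsetSum_of_notMem (fun k => by fun_prop) ha
  have h3 : pl c s = ∑ j ∈ s, fun ω : Idx m₁ m₂ → ℝ => c j * ω j := by
    funext ω
    simp [pl, Finset.sum_apply]
  rw [h3]
  exact h2

lemma moments (hF : Laws F θ κ) (c : Idx m₁ m₂ → ℝ) (s : Finset (Idx m₁ m₂)) :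
    ∫ ω, pl c s ω ∂(joint m₁ m₂ F) = 0 ∧
    ∫ ω, pl c s ω ^ 2 ∂(joint m₁ m₂ F) = ∑ k ∈ s, c k ^ 2 * vr θ k ∧
    ∫ ω, pl c s ω ^ 4 ∂(joint m₁ m₂ F) ≤ 3 * Qc θ κ ^ 2 * (∑ k ∈ s, c k ^ 2) ^ 2 := by
  classical
  have := joint_prob (m₁ := m₁) (m₂ := m₂) hF
  induction s using Finset.induction_on with
  | empty => simp [pl]
  | insert a s ha ih =>
    obtain ⟨ih1, ih2, ih4⟩ := ih
    have hS := memLp_pl hF c s
    have hX : MemLp (fun ω : Idx m₁ m₂ → ℝ => c a * ω a) 8 (joint m₁ m₂ F) :=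
      (memLp_coord hF a).const_mul (c a)
    have hI := indep hF c ha
    have hpl : ∀ ω, pl c (insert a s) ω = pl c s ω + c a * ω a := by
      intro ω
      unfold pl
      rw [Finset.sum_insert ha, add_comm]
    have hmul : ∀ i j : ℕ, ∫ ω, pl c s ω ^ i * (c a * ω a) ^ j ∂(joint m₁ m₂ F) =
        (∫ ω, pl c s ω ^ i ∂(joint m₁ m₂ F)) * ∫ ω, (c a * ω a) ^ j ∂(joint m₁ m₂ F) := by
      intro i j
      have h := hI.comp (φ := fun x => x ^ i) (ψ := fun x => x ^ j) (by fun_prop) (by fun_prop)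
      exact h.integral_fun_mul_eq_mul_integral (hS.aestronglyMeasurable.pow i)
        (hX.aestronglyMeasurable.pow j)
    have hint : ∀ i j : ℕ, i ≤ 8 → j ≤ 8 →
        Integrable (fun ω => pl c s ω ^ i * (c a * ω a) ^ j) (joint m₁ m₂ F) := by
      intro i j hi hj
      have h := hI.comp (φ := fun x => x ^ i) (ψ := fun x => x ^ j) (by fun_prop) (by fun_prop)
      exact h.integrable_mul (int_pow hS hi) (int_pow hX hj)
    have x1 : ∫ ω, (c a * ω a) ^ 1 ∂(joint m₁ m₂ F) = 0 := by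
      simp only [pow_one]
      rw [integral_const_mul, mean_coord hF, mul_zero]
    have x2 : ∫ ω, (c a * ω a) ^ 2 ∂(joint m₁ m₂ F) = c a ^ 2 * vr θ a := by
      simp only [mul_pow]
      rw [integral_const_mul, var_coord hF]
    have x4 : ∫ ω, (c a * ω a) ^ 4 ∂(joint m₁ m₂ F) ≤ c a ^ 4 * Qc θ κ ^ 2 := by
      simp only [mul_pow]
      rw [integral_const_mul]
      exact mul_le_mul_of_nonneg_left (fourth_coord hF a) (by positivity)
    refine ⟨?_, ?_, ?_⟩
    · simp only [hpl]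
      rw [integral_add (by simpa using int_pow hS (i := 1) (by norm_num))
        (by simpa using int_pow hX (i := 1) (by norm_num)), ih1]
      simpa using x1
    · have e : ∀ ω, pl c (insert a s) ω ^ 2 = pl c s ω ^ 2 * (c a * ω a) ^ 0 +
          (2 * (pl c s ω ^ 1 * (c a * ω a) ^ 1) + pl c s ω ^ 0 * (c a * ω a) ^ 2) := by
        intro ω
        rw [hpl]
        ring
      simp only [e]
      have i20 := hint 2 0 (by norm_num) (by norm_num)
      have i11 := (hint 1 1 (by norm_num) (by norm_num)).const_mul 2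
      have i02 := hint 0 2 (by norm_num) (by norm_num)
      have ia : Integrable (fun ω => 2 * (pl c s ω ^ 1 * (c a * ω a) ^ 1) +
        pl c s ω ^ 0 * (c a * ω a) ^ 2) (joint m₁ m₂ F) := i11.add i02
      rw [integral_add i20 ia, integral_add i11 i02, integral_const_mul, hmul, hmul, hmul, x1, x2,
        ih2, Finset.sum_insert ha]
      simp
      ring
    · have e : ∀ ω, pl c (insert a s) ω ^ 4 = pl c s ω ^ 4 * (c a * ω a) ^ 0 +
          (4 * (pl c s ω ^ 3 * (c a * ω a) ^ 1) + (6 * (pl c s ω ^ 2 * (c a * ω a) ^ 2) +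
          (4 * (pl c s ω ^ 1 * (c a * ω a) ^ 3) + pl c s ω ^ 0 * (c a * ω a) ^ 4))) := by
        intro ω
        rw [hpl]
        ring
      have e0 : ∫ ω, pl c (insert a s) ω ^ 4 ∂(joint m₁ m₂ F) =
          ∫ ω, pl c s ω ^ 4 ∂(joint m₁ m₂ F) + (6 * ((∑ k ∈ s, c k ^ 2 * vr θ k) *
            (c a ^ 2 * vr θ a)) + ∫ ω, (c a * ω a) ^ 4 ∂(joint m₁ m₂ F)) := by
        simp only [e]
        have i40 := hint 4 0 (by norm_num) (by norm_num)
        have i31 := (hint 3 1 (by norm_num) (by norm_num)).const_mul 4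
        have i22 := (hint 2 2 (by norm_num) (by norm_num)).const_mul 6
        have i13 := (hint 1 3 (by norm_num) (by norm_num)).const_mul 4
        have i04 := hint 0 4 (by norm_num) (by norm_num)
        have ia : Integrable (fun ω => 4 * (pl c s ω ^ 1 * (c a * ω a) ^ 3) +
          pl c s ω ^ 0 * (c a * ω a) ^ 4) (joint m₁ m₂ F) := i13.add i04
        have ib : Integrable (fun ω => 6 * (pl c s ω ^ 2 * (c a * ω a) ^ 2) +
          (4 * (pl c s ω ^ 1 * (c a * ω a) ^ 3) +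
          pl c s ω ^ 0 * (c a * ω a) ^ 4)) (joint m₁ m₂ F) := i22.add ia
        have ic : Integrable (fun ω => 4 * (pl c s ω ^ 3 * (c a * ω a) ^ 1) +
          (6 * (pl c s ω ^ 2 * (c a * ω a) ^ 2) +
          (4 * (pl c s ω ^ 1 * (c a * ω a) ^ 3) +
          pl c s ω ^ 0 * (c a * ω a) ^ 4))) (joint m₁ m₂ F) := i31.add ib
        rw [integral_add i40 ic, integral_add i31 ib, integral_add i22 ia,
          integral_add i13 i04, integral_const_mul, integral_const_mul, integral_const_mul,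
          hmul, hmul, hmul, hmul, hmul, x1, x2, ih2]
        simp only [pow_one, ih1, pow_zero]
        simp
      rw [e0, Finset.sum_insert ha]
      have hQ := one_le_Q hF
      set σ := ∑ k ∈ s, c k ^ 2 with hσ
      have hσ0 : 0 ≤ σ := Finset.sum_nonneg fun k _ => sq_nonneg _
      have h1 : ∑ k ∈ s, c k ^ 2 * vr θ k ≤ Qc θ κ * σ := by
        rw [hσ, Finset.mul_sum]
        refine Finset.sum_le_sum fun k _ => ?_
        rw [mul_comm]
        exact mul_le_mul_of_nonneg_right (vr_le hF k) (sq_nonneg _)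
      have h2 : (∑ k ∈ s, c k ^ 2 * vr θ k) * (c a ^ 2 * vr θ a) ≤
          (Qc θ κ * σ) * (c a ^ 2 * Qc θ κ) := by
        refine mul_le_mul h1 ?_ (mul_nonneg (sq_nonneg _) (vr_nonneg hF a)) (by positivity)
        exact mul_le_mul_of_nonneg_left (vr_le hF a) (sq_nonneg _)
      have h3 : 0 ≤ Qc θ κ ^ 2 * (c a ^ 4) := by positivity
      nlinarith [x4, ih4, h2, h3]

/-- linear form -/
def lin (c : Idx m₁ m₂ → ℝ) (ω : Idx m₁ m₂ → ℝ) : ℝ := ∑ k, c k * ω k

lemma memLp_lin (hF : Laws F θ κ) (c : Idx m₁ m₂ → ℝ) : MemLp (lin c) 8 (joint m₁ m₂ F) :=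
  memLp_pl hF c Finset.univ

lemma mean_lin (hF : Laws F θ κ) (c : Idx m₁ m₂ → ℝ) : ∫ ω, lin c ω ∂(joint m₁ m₂ F) = 0 :=
  (moments hF c Finset.univ).1

lemma sq_lin (hF : Laws F θ κ) (c : Idx m₁ m₂ → ℝ) :
    ∫ ω, lin c ω ^ 2 ∂(joint m₁ m₂ F) = ∑ k, c k ^ 2 * vr θ k :=
  (moments hF c Finset.univ).2.1

lemma four_lin (hF : Laws F θ κ) (c : Idx m₁ m₂ → ℝ) :
    ∫ ω, lin c ω ^ 4 ∂(joint m₁ m₂ F) ≤ 3 * Qc θ κ ^ 2 * (∑ k, c k ^ 2) ^ 2 :=
  (moments hF c Finset.univ).2.2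

end Pool.Agent.V1184.CR
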